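import Pool.Agent.Q296.DP.Glue

/-! The pattern 1324. -/

set_option autoImplicit false

namespace Pool.Agent.Q296.DP

open Finset

/-! ### 213-avoiders -/

lemma occ213_iff {l : List ℕ} : Occ [1, 0, 2] l ↔
    ∃ p q r : ℕ, q < p ∧ p < r ∧ List.Sublist [p, q, r] l := by
  constructor
  · rintro ⟨f, h1, h2⟩
    refine ⟨f 1, f 0, f 2, h1 0 (by simp) 1 (by simp) (by norm_num),
      h1 1 (by simp) 2 (by simp) (by norm_num), ?_⟩
    simpa using h2
  · rintro ⟨p, q, r, h1, h2, h3⟩
    refine ⟨fun i => if i = 0 then q else if i = 1 then p else r, ?_, by simpa using h3⟩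
    intro a ha b hb hab
    simp only [List.mem_cons, List.not_mem_nil, or_false] at ha hb
    rcases ha with rfl | rfl | rfl <;> rcases hb with rfl | rfl | rfl <;> simp at hab ⊢ <;> omega

lemma occ1324_iff {l : List ℕ} : Occ [0, 2, 1, 3] l ↔
    ∃ a b c d : ℕ, a < c ∧ c < b ∧ b < d ∧ List.Sublist [a, b, c, d] l := by
  constructor
  · rintro ⟨f, h1, h2⟩
    refine ⟨f 0, f 2, f 1, f 3, h1 0 (by simp) 1 (by simp) (by norm_num),
      h1 1 (by simp) 2 (by simp) (by norm_num), h1 2 (by simp) 3 (by simp) (by norm_num), ?_⟩
    simpa using h2
  · rintro ⟨a, b, c, d, h1, h2, h3, h4⟩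
    refine ⟨fun i => if i = 0 then a else if i = 1 then c else if i = 2 then b else d, ?_,
      by simpa using h4⟩
    intro i hi j hj hij
    simp only [List.mem_cons, List.not_mem_nil, or_false] at hi hj
    rcases hi with rfl | rfl | rfl | rfl <;> rcases hj with rfl | rfl | rfl | rfl <;>
      simp at hij ⊢ <;> omega

lemma join_inj : ∀ {A A2 B B2 : List ℕ}, 0 ∉ A → 0 ∉ A2 → A ++ 0 :: B = A2 ++ 0 :: B2 →
    A = A2 ∧ B = B2 := by
  intro A
  induction A with
  | nil =>
    intro A2 B B2 _ h2 h
    cases A2 with
    | nil =>
      simp only [List.nil_append, List.cons.injEq, true_and] at h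
      exact ⟨rfl, h⟩
    | cons a A2 =>
      simp only [List.nil_append, List.cons_append, List.cons.injEq] at h
      exact absurd (by rw [← h.1]; simp) h2
  | cons a A ih =>
    intro A2 B B2 h1 h2 h
    cases A2 with
    | nil =>
      simp only [List.nil_append, List.cons_append, List.cons.injEq] at h
      exact absurd (by rw [h.1]; simp) h1
    | cons a2 A2 =>
      simp only [List.cons_append, List.cons.injEq] at h
      obtain ⟨e1, e2⟩ := h
      obtain ⟨e3, e4⟩ := ih (fun hh => h1 (by simp [hh])) (fun hh => h2 (by simp [hh])) e2
      rw [e1, e3, e4]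
      exact ⟨rfl, rfl⟩

/-- joining map -/
def jn (k : ℕ) (p : List ℕ × List ℕ) : List ℕ :=
  p.1.map (fun a => a + (k + 1)) ++ 0 :: p.2.map (fun a => a + 1)

lemma jn_mem {i k : ℕ} {p : List ℕ × List ℕ} (h1 : p.1 ∈ avL [1, 0, 2] i)
    (h2 : p.2 ∈ avL [1, 0, 2] k) : jn k p ∈ avL [1, 0, 2] (i + k + 1) := by
  obtain ⟨A, B⟩ := p
  simp only at h1 h2
  rw [mem_avL] at h1 h2 ⊢
  obtain ⟨a1, a2⟩ := h1
  obtain ⟨b1, b2⟩ := h2
  have g1 : StrictMono (fun a : ℕ => a + (k + 1)) := fun a b h => by simp only; omega
  have g2 : StrictMono (fun a : ℕ => a + 1) := fun a b h => by simp only; omega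
  refine ⟨?_, ?_⟩
  · unfold jn
    simp only
    have e1 : (A.map (fun a => a + (k + 1))).Perm (List.range' (k + 1) i) := by
      refine (a1.map _).trans (List.Perm.of_eq ?_)
      rw [List.range'_eq_map_range]
      apply List.map_congr_left
      intro a _; omega
    have e2 : (0 :: B.map (fun a => a + 1)).Perm (List.range (k + 1)) := by
      rw [List.range_succ_eq_map]
      exact (b1.map _).cons 0
    refine (e1.append e2).trans (List.perm_append_comm.trans (List.Perm.of_eq ?_))
    have h := List.range'_append_1 (s := 0) (m := k + 1) (n := i)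
    rw [zero_add] at h
    rw [show i + k + 1 = (k + 1) + i by ring, List.range_eq_range', List.range_eq_range', ← h]
  · unfold jn
    simp only
    intro h
    obtain ⟨p, q, r, h3, h4, h5⟩ := occ213_iff.1 h
    obtain ⟨X, Y, e1, e2, e3⟩ := List.sublist_append_iff.1 h5
    have hA : ∀ a ∈ A.map (fun a => a + (k + 1)), k + 1 ≤ a := by
      intro a ha
      obtain ⟨b, -, rfl⟩ := List.mem_map.1 ha
      omega
    have hB : ∀ a ∈ (0 :: B.map (fun a => a + 1)), a < k + 1 := by
      intro a ha
      rw [List.mem_cons] at ha
      rcases ha with rfl | ha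
      · omega
      · obtain ⟨b, hb, rfl⟩ := List.mem_map.1 ha
        have := (perm_range_facts b1).2.1 b
        have := this.1 hb
        omega
    match X, e1, e2 with
    | [], e1, e2 =>
      rw [List.nil_append] at e1
      rw [← e1] at e3
      rcases List.sublist_cons_iff.1 e3 with h6 | ⟨r', h6, h7⟩
      · apply b2
        rw [← Occ_map_iff g2, occ213_iff]
        exact ⟨p, q, r, h3, h4, h6⟩
      · injection h6 with h8 _
        omega
    | [a], e1, e2 =>
      simp only [List.cons_append, List.nil_append, List.cons.injEq] at e1
      obtain ⟨rfl, e1⟩ := e1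
      have m1 := hA p (e2.subset (by simp))
      have m2 := hB r (e3.subset (by rw [← e1]; simp))
      omega
    | [a, b], e1, e2 =>
      simp only [List.cons_append, List.nil_append, List.cons.injEq] at e1
      obtain ⟨rfl, rfl, e1⟩ := e1
      have m1 := hA p (e2.subset (by simp))
      have m2 := hB r (e3.subset (by rw [← e1]; simp))
      omega
    | a :: b :: c :: X', e1, e2 =>
      simp only [List.cons_append, List.cons.injEq] at e1
      obtain ⟨rfl, rfl, rfl, e1⟩ := e1
      apply a2
      rw [← Occ_map_iff g1, occ213_iff]
      refine ⟨p, q, r, h3, h4, List.Sublist.trans ?_ e2⟩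
      simp

lemma cat_le : ∀ n, catalan n ≤ (avL [1, 0, 2] n).card := by
  classical
  intro n
  induction n using Nat.strong_induction_on with
  | _ n ih =>
    cases n with
    | zero => rw [catalan_zero]; exact avL_zero (by simp)
    | succ n =>
      rw [catalan_succ, Fin.sum_univ_eq_sum_range (fun i => catalan i * catalan (n - i)) (n + 1)]
      have h1 : ∀ i ∈ range (n + 1), catalan i * catalan (n - i) ≤
          ((avL [1, 0, 2] i ×ˢ avL [1, 0, 2] (n - i)).image (jn (n - i))).card := by
        intro i hi
        rw [mem_range] at hi
        have hinj : Set.InjOn (jn (n - i)) ((avL [1, 0, 2] i ×ˢ avL [1, 0, 2] (n - i) :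
            Finset (List ℕ × List ℕ)) : Set (List ℕ × List ℕ)) := by
          rintro ⟨A, B⟩ - ⟨A2, B2⟩ - h
          unfold jn at h
          simp only at h
          obtain ⟨e1, e2⟩ := join_inj (by simp) (by simp) h
          have g1 : Function.Injective (fun a : ℕ => a + (n - i + 1)) := fun a b h => by
            simp only at h; omega
          have g2 : Function.Injective (fun a : ℕ => a + 1) := fun a b h => by
            simp only at h; omega
          rw [List.map_injective_iff.2 g1 e1, List.map_injective_iff.2 g2 e2]
        rw [Finset.card_image_of_injOn hinj, Finset.card_product]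
        exact Nat.mul_le_mul (ih i (by omega)) (ih (n - i) (by omega))
      refine (Finset.sum_le_sum h1).trans ?_
      rw [← Finset.card_biUnion]
      · apply Finset.card_le_card
        intro l hl
        rw [mem_biUnion] at hl
        obtain ⟨i, hi, hl⟩ := hl
        rw [mem_range] at hi
        rw [mem_image] at hl
        obtain ⟨p, hp, rfl⟩ := hl
        rw [mem_product] at hp
        have := jn_mem hp.1 hp.2
        rwa [show i + (n - i) + 1 = n + 1 by omega] at this
      · intro i hi j hj hij
        rw [mem_coe, mem_range] at hi hj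
        rw [Function.onFun, Finset.disjoint_left]
        intro l h1 h2
        rw [mem_image] at h1 h2
        obtain ⟨⟨A, B⟩, hp, rfl⟩ := h1
        obtain ⟨⟨A2, B2⟩, hp2, h3⟩ := h2
        rw [mem_product, mem_avL, mem_avL] at hp hp2
        unfold jn at h3
        simp only at h3
        obtain ⟨e1, -⟩ := join_inj (by simp) (by simp) h3
        have e2 := congrArg List.length e1
        rw [List.length_map, List.length_map, (perm_range_facts hp.1.1).1,
          (perm_range_facts hp2.1.1).1] at e2
        exact hij e2.symm

/-! ### Units -/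

/-- units of one or two consecutive values -/
def Shp (U : List (List ℕ)) : Prop := ∀ u ∈ U, ∃ v, u = [v] ∨ u = [v, v + 1]

/-- descending units -/
def Dsc (U : List (List ℕ)) : Prop := U.Pairwise (fun u v => ∀ a ∈ u, ∀ b ∈ v, b < a)

lemma Dsc.cons {u : List ℕ} {U : List (List ℕ)} (h : Dsc (u :: U)) :
    (∀ a ∈ u, ∀ b ∈ U.flatten, b < a) ∧ Dsc U := by
  unfold Dsc at h
  rw [List.pairwise_cons] at h
  refine ⟨fun a ha b hb => ?_, h.2⟩
  obtain ⟨v, hv, hb⟩ := List.mem_flatten.1 hb
  exact h.1 v hv a ha b hb

lemma flat_inj : ∀ {U U2 : List (List ℕ)}, Shp U → Dsc U → Shp U2 → Dsc U2 →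
    U.flatten = U2.flatten → U = U2 := by
  intro U
  induction U with
  | nil =>
    intro U2 _ _ h3 _ h
    cases U2 with
    | nil => rfl
    | cons u U2 =>
      obtain ⟨v, hv | hv⟩ := h3 u (by simp) <;> subst hv <;> simp at h
  | cons u U ih =>
    intro U2 h1 h2 h3 h4 h
    cases U2 with
    | nil => obtain ⟨v, hv | hv⟩ := h1 u (by simp) <;> subst hv <;> simp at h
    | cons u2 U2 =>
      obtain ⟨h2a, h2b⟩ := h2.cons
      obtain ⟨h4a, h4b⟩ := h4.cons
      have h1' : Shp U := fun v hv => h1 v (by simp [hv])
      have h3' : Shp U2 := fun v hv => h3 v (by simp [hv])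
      obtain ⟨v, hv⟩ := h1 u (by simp)
      obtain ⟨v2, hv2⟩ := h3 u2 (by simp)
      rw [List.flatten_cons, List.flatten_cons] at h
      rcases hv with hv | hv <;> rcases hv2 with hv2 | hv2 <;> subst hv <;> subst hv2
      · simp only [List.cons_append, List.nil_append, List.cons.injEq] at h
        rw [h.1, ih h1' h2b h3' h4b h.2]
      · exfalso
        simp only [List.cons_append, List.nil_append, List.cons.injEq] at h
        have := h2a v (by simp) (v2 + 1) (by rw [h.2]; simp)
        omega
      · exfalso
        simp only [List.cons_append, List.nil_append, List.cons.injEq] at h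
        have := h4a v2 (by simp) (v + 1) (by rw [← h.2]; simp)
        omega
      · simp only [List.cons_append, List.nil_append, List.cons.injEq] at h
        rw [h.1, ih h1' h2b h3' h4b h.2.2]

lemma inc_pair : ∀ {V : List (List ℕ)}, Shp V → Dsc V → ∀ {p q : ℕ},
    List.Sublist [p, q] V.flatten → p < q → q = p + 1 := by
  intro V
  induction V with
  | nil => intro _ _ p q h _; simp at h
  | cons u V ih =>
    intro h1 h2 p q h hpq
    obtain ⟨h2a, h2b⟩ := h2.cons
    rw [List.flatten_cons] at h
    obtain ⟨X, Y, e1, e2, e3⟩ := List.sublist_append_iff.1 h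
    match X, e1, e2 with
    | [], e1, e2 =>
      rw [List.nil_append] at e1
      rw [← e1] at e3
      exact ih (fun v hv => h1 v (by simp [hv])) h2b e3 hpq
    | [a], e1, e2 =>
      simp only [List.cons_append, List.nil_append, List.cons.injEq] at e1
      obtain ⟨rfl, e1⟩ := e1
      have := h2a p (e2.subset (by simp)) q (e3.subset (by rw [← e1]; simp))
      omega
    | a :: b :: X', e1, e2 =>
      simp only [List.cons_append, List.cons.injEq] at e1
      obtain ⟨rfl, rfl, e1⟩ := e1
      have e4 : X' = [] := by
        cases X' with
        | nil => rfl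
        | cons => simp at e1
      subst e4
      obtain ⟨v, hv | hv⟩ := h1 u (by simp)
      · subst hv
        have := e2.length_le
        simp at this
      · subst hv
        have := e2.eq_of_length (by simp)
        simp only [List.cons.injEq, and_true] at this
        omega

lemma wv_mem : ∀ {w : List Bool} {U : List (List ℕ)} {B : List ℕ} {q : ℕ},
    q ∈ wv w U B → q ∈ U.flatten ∨ q ∈ B := by
  intro w
  induction w with
  | nil => intro U B q h; simp [wv] at h
  | cons b w ih =>
    intro U B q h
    cases b with
    | true =>
      cases U with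
      | nil => simp only [wv] at h; exact ih h
      | cons u U =>
        simp only [wv, List.mem_append] at h
        rw [List.flatten_cons, List.mem_append]
        rcases h with h | h
        · exact Or.inl (Or.inl h)
        · rcases ih h with h | h
          · exact Or.inl (Or.inr h)
          · exact Or.inr h
    | false =>
      cases B with
      | nil => simp only [wv] at h; exact ih h
      | cons b B =>
        simp only [wv, List.mem_cons] at h
        rcases h with rfl | h
        · right; simp
        · rcases ih h with h | h
          · exact Or.inl h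
          · right; simp [h]

lemma no_between {n : ℕ} : ∀ {w : List Bool} {U : List (List ℕ)} {B : List ℕ}, Dsc U →
    (∀ a ∈ U.flatten, a < n) → (∀ b ∈ B, n ≤ b) → ∀ {p b q : ℕ},
    List.Sublist [p, b, q] (wv w U B) → p < n → n ≤ b → q < n → p < q → False := by
  intro w
  induction w with
  | nil => intro U B _ _ _ p b q h; simp [wv] at h
  | cons c w ih =>
    intro U B h1 h2 h3 p b q h hp hb hq hpq
    cases c with
    | true =>
      cases U with
      | nil =>
        simp only [wv] at h
        exact ih h1 h2 h3 h hp hb hq hpq
      | cons u U =>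
        obtain ⟨h1a, h1b⟩ := h1.cons
        have h2' : ∀ a ∈ U.flatten, a < n := fun a ha => h2 a (by
          rw [List.flatten_cons, List.mem_append]; exact Or.inr ha)
        have h2'' : ∀ a ∈ u, a < n := fun a ha => h2 a (by
          rw [List.flatten_cons, List.mem_append]; exact Or.inl ha)
        simp only [wv] at h
        obtain ⟨X, Y, e1, e2, e3⟩ := List.sublist_append_iff.1 h
        match X, e1, e2 with
        | [], e1, e2 =>
          rw [List.nil_append] at e1
          rw [← e1] at e3
          exact ih h1b h2' h3 e3 hp hb hq hpq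
        | [a], e1, e2 =>
          simp only [List.cons_append, List.nil_append, List.cons.injEq] at e1
          obtain ⟨rfl, e1⟩ := e1
          have g1 : q ∈ wv w U B := e3.subset (by rw [← e1]; simp)
          rcases wv_mem g1 with g2 | g2
          · have := h1a p (e2.subset (by simp)) q g2
            omega
          · have := h3 q g2
            omega
        | a :: b' :: X', e1, e2 =>
          simp only [List.cons_append, List.cons.injEq] at e1
          obtain ⟨rfl, rfl, e1⟩ := e1
          have := h2'' b (e2.subset (by simp))
          omega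
    | false =>
      cases B with
      | nil =>
        simp only [wv] at h
        exact ih h1 h2 h3 h hp hb hq hpq
      | cons b' B =>
        simp only [wv] at h
        rcases List.sublist_cons_iff.1 h with h4 | ⟨r, h4, h5⟩
        · exact ih h1 h2 (fun b hb => h3 b (by simp [hb])) h4 hp hb hq hpq
        · injection h4 with h6 _
          have := h3 b' (by simp)
          omega

lemma sub_drop_last' {P A R : List ℕ} {c : ℕ} (h : List.Sublist (P ++ [c]) (A ++ R))
    (hc : c ∉ R) : List.Sublist (P ++ [c]) A := by
  obtain ⟨X, Y, h1, h2, h3⟩ := List.sublist_append_iff.1 h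
  rcases List.eq_nil_or_concat Y with hY | ⟨Y', y, hY⟩
  · subst hY
    rw [List.append_nil] at h1
    rw [← h1] at h2
    exact h2
  · exfalso
    rw [hY, List.concat_eq_append, ← List.append_assoc] at h1
    have h4 := List.append_inj_right' h1 rfl
    have h5 : c = y := by simpa using h4
    apply hc
    rw [h5]
    apply h3.subset
    rw [hY]; simp

lemma dbl_avoid {n : ℕ} {w : List Bool} {U V : List (List ℕ)} {B rest : List ℕ}
    (hV1 : Shp V) (hV2 : Dsc V) (hV3 : ∀ a ∈ V.flatten, n ≤ a)
    (hU1 : Shp U) (hU2 : Dsc U) (hU3 : ∀ a ∈ U.flatten, a < n)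
    (hB1 : ∀ b ∈ B, n ≤ b) (hB2 : ¬ Occ [1, 0, 2] B) (hr : ∀ a ∈ rest, a < n)
    (hl : ¬ Occ [0, 2, 1, 3] (U.flatten ++ rest)) (c1 : U.length = w.count true)
    (c2 : B.length = w.count false) :
    ¬ Occ [0, 2, 1, 3] (V.flatten ++ (wv w U B ++ rest)) := by
  rw [occ1324_iff]
  rintro ⟨a, b, c, d, h1, h2, h3, h4⟩
  have f1 := wv_filter_lt w U B c1 c2 hU3 hB1
  have f2 := wv_filter_ge w U B c1 c2 hU3 hB1
  have key : ∀ {L : List ℕ}, List.Sublist [b, c, d] L → L.filter (fun a => decide (n ≤ a)) = B →
      n ≤ b → n ≤ c → n ≤ d → False := by
    intro L g1 g2 g3 g4 g5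
    apply hB2
    rw [occ213_iff]
    refine ⟨b, c, d, h2, h3, ?_⟩
    have := g1.filter (fun a => decide (n ≤ a))
    rw [g2] at this
    rwa [List.filter_cons_of_pos (by simpa using g3), List.filter_cons_of_pos (by simpa using g4),
      List.filter_cons_of_pos (by simpa using g5), List.filter_nil] at this
  by_cases hd : d < n
  · apply hl
    rw [occ1324_iff]
    refine ⟨a, b, c, d, h1, h2, h3, ?_⟩
    have g1 := h4.filter (fun a => decide (a < n))
    have g2 : V.flatten.filter (fun a => decide (a < n)) = [] := by
      rw [List.filter_eq_nil_iff]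
      intro a ha
      have := hV3 a ha
      simp; omega
    have g3 : rest.filter (fun a => decide (a < n)) = rest := by
      rw [List.filter_eq_self]
      intro a ha
      have := hr a ha
      simpa using this
    rw [List.filter_append, List.filter_append, g2, f1, g3, List.nil_append,
      List.filter_cons_of_pos (by simp; omega), List.filter_cons_of_pos (by simp; omega),
      List.filter_cons_of_pos (by simp; omega), List.filter_cons_of_pos (by simpa using hd),
      List.filter_nil] at g1
    exact g1
  · rw [not_lt] at hd
    have h5 : List.Sublist [a, b, c, d] (V.flatten ++ wv w U B) := by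
      rw [← List.append_assoc] at h4
      exact sub_drop_last' (P := [a, b, c]) h4 (fun hc => by have := hr _ hc; omega)
    obtain ⟨X, Y, e1, e2, e3⟩ := List.sublist_append_iff.1 h5
    match X, e1, e2 with
    | [], e1, e2 =>
      rw [List.nil_append] at e1
      rw [← e1] at e3
      by_cases ha : n ≤ a
      · exact key ((List.sublist_cons_self a _).trans e3) f2 (by omega) (by omega) hd
      · rw [not_le] at ha
        by_cases hb : n ≤ b
        · by_cases hc : n ≤ c
          · exact key ((List.sublist_cons_self a _).trans e3) f2 hb hc hd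
          · rw [not_le] at hc
            refine no_between (w := w) hU2 hU3 hB1 (p := a) (b := b) (q := c) ?_ ha hb hc h1
            refine List.Sublist.trans ?_ e3
            simp
        · rw [not_le] at hb
          have g1 : List.Sublist [a, b] U.flatten := by
            rw [← f1]
            have g2 : List.Sublist [a, b] (wv w U B) := by
              refine List.Sublist.trans ?_ e3
              simp
            have g3 := g2.filter (fun a => decide (a < n))
            rwa [List.filter_cons_of_pos (by simpa using ha),
              List.filter_cons_of_pos (by simpa using hb), List.filter_nil] at g3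
          have := inc_pair hU1 hU2 g1 (by omega)
          omega
    | [a'], e1, e2 =>
      simp only [List.cons_append, List.nil_append, List.cons.injEq] at e1
      obtain ⟨rfl, e1⟩ := e1
      have g1 := hV3 a (e2.subset (by simp))
      rw [← e1] at e3
      exact key e3 f2 (by omega) (by omega) hd
    | a' :: b' :: X', e1, e2 =>
      simp only [List.cons_append, List.cons.injEq] at e1
      obtain ⟨rfl, rfl, e1⟩ := e1
      have g1 : List.Sublist [a, b] V.flatten := by
        refine List.Sublist.trans ?_ e2
        simp
      have := inc_pair hV1 hV2 g1 (by omega)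
      omega

end Pool.Agent.Q296.DP
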