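import Pool.Agent.Q296.DP.Words

/-! Gluing two patterns at a common point. -/

set_option autoImplicit false

namespace Pool.Agent.Q296.DP

open Finset

lemma sub_drop_last {P A R : List ℕ} {c : ℕ} (h : List.Sublist (P ++ [c]) (A ++ R))
    (hc : c ∉ R) : List.Sublist P A := by
  obtain ⟨X, Y, h1, h2, h3⟩ := List.sublist_append_iff.1 h
  rcases List.eq_nil_or_concat Y with hY | ⟨Y', y, hY⟩
  · subst hY
    rw [List.append_nil] at h1
    rw [← h1] at h2
    exact (List.sublist_append_left P [c]).trans h2
  · exfalso
    rw [hY, List.concat_eq_append, ← List.append_assoc] at h1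
    have h4 := List.append_inj_right' h1 rfl
    have h5 : c = y := by simpa using h4
    apply hc
    rw [h5]
    apply h3.subset
    rw [hY]; simp

lemma glue_avoid {s t : List ℕ} {m n : ℕ} (hs : ∀ a ∈ s, a < m) (ht : ∀ b ∈ t, m < b)
    {Rn C rest Ro Bn : List ℕ}
    (hR : ¬ Occ (s ++ [m]) Rn) (hRo : ¬ Occ (s ++ [m]) Ro) (hB : ¬ Occ (m :: t) Bn)
    (hl : ¬ Occ (s ++ m :: t) (Ro ++ rest)) (h1 : ∀ a ∈ Rn, n ≤ a)
    (h2 : C.filter (fun a => decide (a < n)) = Ro)
    (h3 : C.filter (fun a => decide (n ≤ a)) = Bn) (h4 : ∀ a ∈ rest, a < n) :
    ¬ Occ (s ++ m :: t) (Rn ++ (C ++ rest)) := by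
  rintro ⟨f, hf, hsub⟩
  have hsub0 := hsub
  rw [List.map_append, List.map_cons] at hsub
  have hfs : ∀ a ∈ s, f a < f m := fun a ha => hf a (by simp [ha]) m (by simp) (hs a ha)
  have hft : ∀ b ∈ t, f m < f b := fun b hb => hf m (by simp) b (by simp [hb]) (ht b hb)
  have r1 : Rn.filter (fun a => decide (a < n)) = [] := by
    rw [List.filter_eq_nil_iff]
    intro a ha
    have := h1 a ha
    simp; omega
  have r2 : rest.filter (fun a => decide (a < n)) = rest := by
    rw [List.filter_eq_self]
    intro a ha
    have := h4 a ha
    simpa using this
  have r3 : rest.filter (fun a => decide (n ≤ a)) = [] := by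
    rw [List.filter_eq_nil_iff]
    intro a ha
    have := h4 a ha
    simp; omega
  have hE : List.Sublist (f m :: t.map f) (C ++ rest) := by
    obtain ⟨O1, O2, e1, e2, e3⟩ := List.sublist_append_iff.1 hsub
    rcases List.append_eq_append_iff.1 e1 with ⟨a', g1, g2⟩ | ⟨c', g1, g2⟩
    · cases a' with
      | nil =>
        rw [List.nil_append] at g2
        rw [g2]; exact e3
      | cons a0 a'' =>
        exfalso
        rw [List.cons_append] at g2
        injection g2 with g3 g4
        apply hR
        refine ⟨f, fun a ha b hb hab => hf a ?_ b ?_ hab, ?_⟩
        · rw [List.mem_append, List.mem_singleton] at ha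
          rw [List.mem_append, List.mem_cons]
          tauto
        · rw [List.mem_append, List.mem_singleton] at hb
          rw [List.mem_append, List.mem_cons]
          tauto
        · rw [List.map_append, List.map_cons, List.map_nil]
          refine List.Sublist.trans ?_ e2
          rw [g1, ← g3]
          have : s.map f ++ f m :: a'' = (s.map f ++ [f m]) ++ a'' := by simp
          rw [this]
          exact List.sublist_append_left _ _
    · rw [g2] at e3
      exact (List.sublist_append_right c' _).trans e3
  by_cases hn : n ≤ f m
  · -- the middle point is new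
    apply hB
    refine ⟨f, fun a ha b hb hab => hf a ?_ b ?_ hab, ?_⟩
    · rw [List.mem_append]; exact Or.inr ha
    · rw [List.mem_append]; exact Or.inr hb
    · rw [List.map_cons]
      have h5 := hE.filter (fun a => decide (n ≤ a))
      rw [List.filter_append, h3, r3, List.append_nil] at h5
      have h6 : (f m :: t.map f).filter (fun a => decide (n ≤ a)) = f m :: t.map f := by
        rw [List.filter_eq_self]
        intro a ha
        rw [List.mem_cons, List.mem_map] at ha
        rcases ha with rfl | ⟨b, hb, rfl⟩
        · simpa using hn
        · have := hft b hb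
          simp; omega
      rw [h6] at h5
      exact h5
  · rw [not_le] at hn
    by_cases hall : ∀ b ∈ t, f b < n
    · -- everything is old
      apply hl
      refine ⟨f, hf, ?_⟩
      have h5 := hsub0.filter (fun a => decide (a < n))
      rw [List.filter_append, List.filter_append, r1, h2, r2, List.nil_append] at h5
      have h6 : ((s ++ m :: t).map f).filter (fun a => decide (a < n)) = (s ++ m :: t).map f := by
        rw [List.filter_eq_self]
        intro a ha
        rw [List.mem_map] at ha
        obtain ⟨b, hb, rfl⟩ := ha
        rw [List.mem_append, List.mem_cons] at hb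
        rcases hb with hb | rfl | hb
        · have := hfs b hb
          simp; omega
        · simpa using hn
        · simpa using hall b hb
      rw [h6] at h5
      exact h5
    · push Not at hall
      obtain ⟨b, hb, hbn⟩ := hall
      apply hRo
      refine ⟨f, fun a ha b hb hab => hf a ?_ b ?_ hab, ?_⟩
      · rw [List.mem_append, List.mem_singleton] at ha
        rw [List.mem_append, List.mem_cons]
        tauto
      · rw [List.mem_append, List.mem_singleton] at hb
        rw [List.mem_append, List.mem_cons]
        tauto
      · rw [List.map_append, List.map_cons, List.map_nil]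
        have h5 : List.Sublist ((s.map f ++ [f m]) ++ [f b]) ((Rn ++ C) ++ rest) := by
          rw [List.append_assoc Rn C rest]
          refine List.Sublist.trans ?_ hsub
          rw [List.append_assoc]
          apply List.Sublist.append_left
          rw [List.singleton_append]
          apply List.Sublist.cons_cons
          rw [List.singleton_sublist]
          exact List.mem_map_of_mem hb
        have h6 := sub_drop_last h5 (fun hc => by have := h4 _ hc; omega)
        have h7 := h6.filter (fun a => decide (a < n))
        have h8 : (s.map f ++ [f m]).filter (fun a => decide (a < n)) = s.map f ++ [f m] := by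
          rw [List.filter_eq_self]
          intro a ha
          rw [List.mem_append, List.mem_map, List.mem_singleton] at ha
          rcases ha with ⟨c, hc, rfl⟩ | rfl
          · have := hfs c hc
            simp; omega
          · simpa using hn
        rw [h8, List.filter_append, r1, h2, List.nil_append] at h7
        exact h7

/-- value of the `i`-th letter equal to `b` -/
def nt (b : Bool) : List Bool → ℕ → ℕ → ℕ
  | [], k, i => k + i
  | c :: w, k, i => if c = b then (match i with
      | 0 => k
      | i + 1 => nt b w (k + 1) i) else nt b w (k + 1) i

lemma nt_ge (b : Bool) : ∀ (w : List Bool) (k i : ℕ), k ≤ nt b w k i := by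
  intro w
  induction w with
  | nil => intro k i; simp [nt]
  | cons c w ih =>
    intro k i
    by_cases hc : c = b
    · cases i with
      | zero => simp [nt, hc]
      | succ i =>
        simp only [nt, hc, if_true]
        exact le_trans (Nat.le_succ k) (ih _ _)
    · simp only [nt, hc, if_false]
      exact le_trans (Nat.le_succ k) (ih _ _)

lemma nt_strictMono (b : Bool) : ∀ (w : List Bool) (k : ℕ), StrictMono (nt b w k) := by
  intro w
  induction w with
  | nil => intro k i j h; simp only [nt]; omega
  | cons c w ih =>
    intro k
    by_cases hc : c = b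
    · intro i j h
      cases j with
      | zero => omega
      | succ j =>
        cases i with
        | zero =>
          simp only [nt, hc, if_true]
          exact lt_of_lt_of_le (Nat.lt_succ_self k) (nt_ge _ _ _ _)
        | succ i =>
          simp only [nt, hc, if_true]
          exact ih _ (by omega)
    · have : nt b (c :: w) k = nt b w (k + 1) := by funext i; simp [nt, hc]
      rw [this]; exact ih _

lemma nt_map_self (b : Bool) (w : List Bool) (k : ℕ) (x : ℕ) :
    (List.range (x + 1)).map (nt b (b :: w) k) = k :: (List.range x).map (nt b w (k + 1)) := by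
  rw [List.range_succ_eq_map, List.map_cons, List.map_map]
  congr 1
  · simp [nt]
  · apply List.map_congr_left
    intro i _
    simp [nt]

lemma nt_map_other {b c : Bool} (h : c ≠ b) (w : List Bool) (k : ℕ) (x : ℕ) :
    (List.range x).map (nt b (c :: w) k) = (List.range x).map (nt b w (k + 1)) := by
  have : nt b (c :: w) k = nt b w (k + 1) := by funext i; simp [nt, h]
  rw [this]

lemma nt_perm : ∀ (w : List Bool) (k : ℕ),
    ((List.range (w.count true)).map (nt true w k) ++
      (List.range (w.count false)).map (nt false w k)).Perm (List.range' k w.length) := by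
  intro w
  induction w with
  | nil => intro k; simp
  | cons b w ih =>
    intro k
    cases b with
    | true =>
      have e1 : (true :: w).count true = w.count true + 1 := by simp
      have e2 : (true :: w).count false = w.count false := by simp
      rw [e1, e2, nt_map_self, nt_map_other (by simp), List.length_cons, List.range'_succ,
        List.cons_append]
      exact (ih (k + 1)).cons k
    | false =>
      have e1 : (false :: w).count true = w.count true := by simp
      have e2 : (false :: w).count false = w.count false + 1 := by simp
      rw [e1, e2, nt_map_self, nt_map_other (by simp), List.length_cons, List.range'_succ]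
      exact List.perm_middle.trans ((ih (k + 1)).cons k)

lemma nt_inj : ∀ (w w2 : List Bool) (k : ℕ), w.length = w2.length →
    w.count true = w2.count true →
    (List.range (w.count true)).map (nt true w k) = (List.range (w2.count true)).map
      (nt true w2 k) → w = w2 := by
  intro w
  induction w with
  | nil =>
    intro w2 k h _ _
    exact (List.length_eq_zero_iff.1 (by simpa using h.symm)).symm
  | cons b w ih =>
    intro w2 k h1 h2 h3
    cases w2 with
    | nil => simp at h1
    | cons b2 w2 =>
      have h1' : w.length = w2.length := by simpa using h1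
      cases b with
      | true =>
        have e1 : (true :: w).count true = w.count true + 1 := by simp
        cases b2 with
        | true =>
          have e2 : (true :: w2).count true = w2.count true + 1 := by simp
          rw [e1, e2, nt_map_self, nt_map_self] at h3
          injection h3 with _ h4
          rw [e1, e2] at h2
          rw [ih w2 (k + 1) h1' (by omega) h4]
        | false =>
          exfalso
          have e2 : (false :: w2).count true = w2.count true := by simp
          rw [e1, nt_map_self, e2, nt_map_other (by simp)] at h3
          have h5 : k ∈ (List.range (w2.count true)).map (nt true w2 (k + 1)) := by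
            rw [← h3]; simp
          obtain ⟨i, -, hi⟩ := List.mem_map.1 h5
          have := nt_ge true w2 (k + 1) i
          omega
      | false =>
        have e1 : (false :: w).count true = w.count true := by simp
        cases b2 with
        | true =>
          exfalso
          have e2 : (true :: w2).count true = w2.count true + 1 := by simp
          rw [e2, nt_map_self, e1, nt_map_other (by simp)] at h3
          have h5 : k ∈ (List.range (w.count true)).map (nt true w (k + 1)) := by
            rw [h3]; simp
          obtain ⟨i, -, hi⟩ := List.mem_map.1 h5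
          have := nt_ge true w (k + 1) i
          omega
        | false =>
          have e2 : (false :: w2).count true = w2.count true := by simp
          rw [e1, e2, nt_map_other (by simp), nt_map_other (by simp)] at h3
          rw [e1, e2] at h2
          rw [ih w2 (k + 1) h1' h2 h3]

/-- glued words: the first `x` letters avoid the first pattern -/
noncomputable def gs (s t : List ℕ) (m x n : ℕ) : Finset (List ℕ) := by
  classical
  exact (avL (s ++ m :: t) n).filter (fun l => ¬ Occ (s ++ [m]) (l.take x))

lemma mem_gs {s t : List ℕ} {m x n : ℕ} {l : List ℕ} :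
    l ∈ gs s t m x n ↔ l ∈ avL (s ++ m :: t) n ∧ ¬ Occ (s ++ [m]) (l.take x) := by
  classical
  unfold gs
  rw [mem_filter]

/-- the step map -/
def gmap (x n : ℕ) (p : List Bool × List Bool × List ℕ × List ℕ × List ℕ) : List ℕ :=
  (p.2.2.1.map (nt true p.2.1 n)) ++
    (wv p.1 ((p.2.2.2.2.take x).map (fun a => [a])) (p.2.2.2.1.map (nt false p.2.1 n)) ++
      p.2.2.2.2.drop x)

lemma flatten_sing (l : List ℕ) : (l.map (fun a => [a])).flatten = l := by
  induction l with
  | nil => rfl
  | cons a l ih => simp only [List.map_cons, List.flatten_cons, ih, List.singleton_append]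

lemma perm_range_facts {l : List ℕ} {n : ℕ} (h : l.Perm (List.range n)) :
    l.length = n ∧ (∀ a, a ∈ l ↔ a < n) ∧ l.Nodup := by
  refine ⟨by rw [h.length_eq, List.length_range], fun a => ?_, ?_⟩
  · rw [h.mem_iff, List.mem_range]
  · exact h.nodup_iff.2 List.nodup_range

lemma gs_step {s t : List ℕ} {m x y n : ℕ} (hs : ∀ a ∈ s, a < m) (ht : ∀ b ∈ t, m < b)
    (hx : x ≤ n) :
    (x + y).choose x * ((x + y).choose x * ((avL (s ++ [m]) x).card *
      ((avL (m :: t) y).card * (gs s t m x n).card))) ≤ (gs s t m x (n + (x + y))).card := by
  classical
  rw [← card_wd (x + y) x, ← Finset.card_product, ← Finset.card_product, ← Finset.card_product,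
    ← Finset.card_product]
  apply Finset.card_le_card_of_injOn (gmap x n)
  · rintro ⟨w, w', ρ, β, l⟩ hp
    rw [mem_coe, mem_product, mem_product, mem_product, mem_product] at hp
    obtain ⟨hw, hw', hρ, hβ, hl⟩ := hp
    simp only at hw hw' hρ hβ hl
    obtain ⟨w1, w2, w3⟩ := mem_wd hw
    obtain ⟨v1, v2, v3⟩ := mem_wd hw'
    rw [mem_avL] at hρ hβ
    rw [mem_gs, mem_avL] at hl
    obtain ⟨⟨hl1, hl2⟩, hl3⟩ := hl
    obtain ⟨ρ1, ρ2, ρ3⟩ := perm_range_facts hρ.1
    obtain ⟨β1, β2, β3⟩ := perm_range_facts hβ.1
    obtain ⟨l1, l2, l3⟩ := perm_range_facts hl1
    have hwf : w.count false = y := by omega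
    have hvf : w'.count false = y := by omega
    have hUlen : ((l.take x).map (fun a => [a])).length = w.count true := by
      rw [List.length_map, List.length_take, l1, w2]; omega
    have hBlen : (β.map (nt false w' n)).length = w.count false := by
      rw [List.length_map, β1, hwf]
    have hU : ∀ a ∈ ((l.take x).map (fun a => [a])).flatten, a < n := by
      intro a ha
      rw [flatten_sing] at ha
      exact (l2 a).1 (List.mem_of_mem_take ha)
    have hB : ∀ b ∈ β.map (nt false w' n), n ≤ b := by
      intro b hb
      obtain ⟨i, -, rfl⟩ := List.mem_map.1 hb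
      exact nt_ge _ _ _ _
    have hRn : ∀ b ∈ ρ.map (nt true w' n), n ≤ b := by
      intro b hb
      obtain ⟨i, -, rfl⟩ := List.mem_map.1 hb
      exact nt_ge _ _ _ _
    have f1 := wv_filter_lt w _ _ hUlen hBlen hU hB
    have f2 := wv_filter_ge w _ _ hUlen hBlen hU hB
    have f3 := wv_perm w _ _ hUlen hBlen
    rw [flatten_sing] at f1 f3
    rw [mem_coe, mem_gs, mem_avL]
    refine ⟨⟨?_, ?_⟩, ?_⟩
    · -- permutation
      have g1 : (ρ.map (nt true w' n) ++ β.map (nt false w' n)).Perm
          (List.range' n (x + y)) := by
        have h1 := (hρ.1.map (nt true w' n)).append (hβ.1.map (nt false w' n))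
        have h2 := nt_perm w' n
        rw [v1, v2, hvf] at h2
        exact h1.trans h2
      have g2 : List.range (n + (x + y)) = List.range n ++ List.range' n (x + y) := by
        rw [List.range_eq_range', List.range_eq_range', List.range'_append_1 |>.symm]
        simp
      unfold gmap
      simp only
      rw [g2]
      have g3 : ((ρ.map (nt true w' n)) ++ (wv w ((l.take x).map (fun a => [a]))
          (β.map (nt false w' n)) ++ l.drop x)).Perm
          ((ρ.map (nt true w' n)) ++ ((l.take x ++ β.map (nt false w' n)) ++ l.drop x)) :=
        (f3.append_right _).append_left _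
      refine g3.trans ?_
      have g4 : ((ρ.map (nt true w' n)) ++ ((l.take x ++ β.map (nt false w' n)) ++
          l.drop x)).Perm ((ρ.map (nt true w' n) ++ β.map (nt false w' n)) ++
          (l.take x ++ l.drop x)) := by
        rw [List.append_assoc, List.append_assoc]
        apply List.Perm.append_left
        rw [← List.append_assoc, ← List.append_assoc]
        apply List.Perm.append_right
        exact List.perm_append_comm
      refine g4.trans ?_
      rw [List.take_append_drop]
      exact (List.perm_append_comm).trans (hl1.append g1)
    · unfold gmap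
      simp only
      apply glue_avoid hs ht (n := n) (Ro := l.take x) (Bn := β.map (nt false w' n))
      · rw [Occ_map_iff (nt_strictMono _ _ _)]; exact hρ.2
      · exact hl3
      · rw [Occ_map_iff (nt_strictMono _ _ _)]; exact hβ.2
      · rw [List.take_append_drop]; exact hl2
      · exact hRn
      · exact f1
      · exact f2
      · intro a ha
        exact (l2 a).1 (List.mem_of_mem_drop ha)
    · unfold gmap
      simp only
      rw [List.take_append_of_le_length (by rw [List.length_map, ρ1]),
        List.take_of_length_le (by rw [List.length_map, ρ1]), Occ_map_iff (nt_strictMono _ _ _)]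
      exact hρ.2
  · -- injectivity
    rintro ⟨w, w', ρ, β, l⟩ hp ⟨W, W', P, B, L⟩ hP heq
    rw [mem_coe, mem_product, mem_product, mem_product, mem_product] at hp hP
    obtain ⟨hw, hw', hρ, hβ, hl⟩ := hp
    obtain ⟨hW, hW', hP', hB, hL⟩ := hP
    simp only at hw hw' hρ hβ hl hW hW' hP' hB hL
    obtain ⟨w1, w2, w3⟩ := mem_wd hw
    obtain ⟨v1, v2, v3⟩ := mem_wd hw'
    obtain ⟨W1, W2, W3⟩ := mem_wd hW
    obtain ⟨V1, V2, V3⟩ := mem_wd hW'
    rw [mem_avL] at hρ hβ hP' hB
    rw [mem_gs, mem_avL] at hl hL
    obtain ⟨⟨hl1, -⟩, -⟩ := hl
    obtain ⟨⟨hL1, -⟩, -⟩ := hL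
    obtain ⟨ρ1, ρ2, ρ3⟩ := perm_range_facts hρ.1
    obtain ⟨β1, β2, β3⟩ := perm_range_facts hβ.1
    obtain ⟨l1, l2, l3⟩ := perm_range_facts hl1
    obtain ⟨P1, P2, P3⟩ := perm_range_facts hP'.1
    obtain ⟨B1, B2, B3⟩ := perm_range_facts hB.1
    obtain ⟨L1, L2, L3⟩ := perm_range_facts hL1
    unfold gmap at heq
    simp only at heq
    obtain ⟨e1, e2⟩ := List.append_inj heq (by rw [List.length_map, List.length_map, ρ1, P1])
    -- the value word
    have q1 : ((List.range (w'.count true)).map (nt true w' n)).Perm
        ((List.range (W'.count true)).map (nt true W' n)) := by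
      rw [v2, V2]
      refine (hρ.1.map _).symm.trans ?_
      rw [e1]
      exact hP'.1.map _
    have q2 : ∀ (v : List Bool) (k c : ℕ), ((List.range c).map (nt true v k)).Pairwise (· < ·) := by
      intro v k c
      rw [List.pairwise_map]
      exact List.pairwise_lt_range.imp (fun h => nt_strictMono true v k h)
    have q3 := q1.eq_of_pairwise (fun a b _ _ h1 h2 => absurd h1 (not_lt.2 h2.le)) (q2 _ _ _) (q2 _ _ _)
    have q4 : w' = W' := nt_inj w' W' n (by rw [v1, V1]) (by rw [v2, V2]) q3
    subst q4
    have q5 : ρ = P := (List.map_injective_iff.2 (nt_strictMono true w' n).injective) e1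
    subst q5
    -- the rest
    have hwf : w.count false = y := by omega
    have hWf : W.count false = y := by omega
    have hUlen : ((l.take x).map (fun a => [a])).length = w.count true := by
      rw [List.length_map, List.length_take, l1, w2]; omega
    have hBlen : (β.map (nt false w' n)).length = w.count false := by
      rw [List.length_map, β1, hwf]
    have hUlen' : ((L.take x).map (fun a => [a])).length = W.count true := by
      rw [List.length_map, List.length_take, L1, W2]; omega
    have hBlen' : (B.map (nt false w' n)).length = W.count false := by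
      rw [List.length_map, B1, hWf]
    have hU : ∀ a ∈ ((l.take x).map (fun a => [a])).flatten, a < n := by
      intro a ha
      rw [flatten_sing] at ha
      exact (l2 a).1 (List.mem_of_mem_take ha)
    have hU' : ∀ a ∈ ((L.take x).map (fun a => [a])).flatten, a < n := by
      intro a ha
      rw [flatten_sing] at ha
      exact (L2 a).1 (List.mem_of_mem_take ha)
    have hBg : ∀ b ∈ β.map (nt false w' n), n ≤ b := by
      intro b hb
      obtain ⟨i, -, rfl⟩ := List.mem_map.1 hb
      exact nt_ge _ _ _ _
    have hBg' : ∀ b ∈ B.map (nt false w' n), n ≤ b := by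
      intro b hb
      obtain ⟨i, -, rfl⟩ := List.mem_map.1 hb
      exact nt_ge _ _ _ _
    have lenC : (wv w ((l.take x).map (fun a => [a])) (β.map (nt false w' n))).length =
        (wv W ((L.take x).map (fun a => [a])) (B.map (nt false w' n))).length := by
      rw [(wv_perm w _ _ hUlen hBlen).length_eq, (wv_perm W _ _ hUlen' hBlen').length_eq]
      rw [flatten_sing, flatten_sing, List.length_append, List.length_append, List.length_take,
        List.length_take, List.length_map, List.length_map, l1, L1, β1, B1]
    obtain ⟨e3, e4⟩ := List.append_inj e2 lenC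
    have t1 : l.take x = L.take x := by
      have a1 := wv_filter_lt w _ _ hUlen hBlen hU hBg
      have a2 := wv_filter_lt W _ _ hUlen' hBlen' hU' hBg'
      rw [flatten_sing] at a1 a2
      rw [← a1, ← a2, e3]
    have t2 : β = B := by
      have a1 := wv_filter_ge w _ _ hUlen hBlen hU hBg
      have a2 := wv_filter_ge W _ _ hUlen' hBlen' hU' hBg'
      have a3 : β.map (nt false w' n) = B.map (nt false w' n) := by rw [← a1, ← a2, e3]
      exact (List.map_injective_iff.2 (nt_strictMono false w' n).injective) a3
    have t3 : l = L := by
      rw [← List.take_append_drop x l, ← List.take_append_drop x L, t1, e4]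
    subst t3
    subst t2
    have t4 : w = W := wv_inj w W _ _ hUlen hBlen hUlen' hBlen' hU (by
      intro u hu
      obtain ⟨a, -, rfl⟩ := List.mem_map.1 hu
      simp) hBg e3
    rw [t4]

end Pool.Agent.Q296.DP
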