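import Pool.Agent.Q296.DP.Base

/-! Growth of the avoidance classes. -/

set_option autoImplicit false

namespace Pool.Agent.Q296.DP

open Finset

/-- sizes -/
def szb (b : Bool) : ℕ := cond b 2 1

lemma szb_inj : Function.Injective szb := by
  intro a b h
  cases a <;> cases b <;> simp [szb] at h ⊢

lemma sum_szb (d : List Bool) : (d.map szb).sum = d.length + d.count true := by
  induction d with
  | nil => simp
  | cons b d ih =>
    cases b with
    | true => simp [szb, ih]; omega
    | false => simp [szb, ih]; omega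

/-- a front of `x` units -/
def Fr (x z : ℕ) (l : List ℕ) (U : List (List ℕ)) : Prop :=
  Shp U ∧ Dsc U ∧ U.length = x ∧ U.flatten = l.take (x + z)

/-- 1324-avoiding words with a front -/
noncomputable def ds (x z n : ℕ) : Finset (List ℕ) := by
  classical
  exact (avL [0, 2, 1, 3] n).filter (fun l => ∃ U, Fr x z l U)

lemma mem_ds {x z n : ℕ} {l : List ℕ} :
    l ∈ ds x z n ↔ l ∈ avL [0, 2, 1, 3] n ∧ ∃ U, Fr x z l U := by
  classical
  unfold ds
  rw [mem_filter]

/-- a chosen front -/
noncomputable def frt (x z : ℕ) (l : List ℕ) : List (List ℕ) := by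
  classical
  exact if h : ∃ U, Fr x z l U then h.choose else []

lemma frt_spec {x z : ℕ} {l : List ℕ} (h : ∃ U, Fr x z l U) : Fr x z l (frt x z l) := by
  classical
  unfold frt
  rw [dif_pos h]
  exact h.choose_spec

/-- new units -/
def nu (w : List Bool) (d : List Bool) (n : ℕ) : List (List ℕ) := (un w (d.map szb) n).reverse

lemma nu_shp (w d : List Bool) (n : ℕ) : Shp (nu w d n) := by
  intro u hu
  unfold nu at hu
  rw [List.mem_reverse] at hu
  obtain ⟨v, s, h1, h2⟩ := un_shape _ _ _ u hu
  obtain ⟨b, -, hb⟩ := List.mem_map.1 h1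
  refine ⟨v, ?_⟩
  rw [h2, ← hb]
  cases b <;> simp [szb, List.range'_succ]

lemma nu_dsc (w d : List Bool) (n : ℕ) : Dsc (nu w d n) := by
  unfold Dsc nu
  rw [List.pairwise_reverse]
  exact (un_pairwise _ _ _).imp (fun h a ha b hb => h b hb a ha)

lemma nu_perm {w d : List Bool} {n : ℕ} (h : d.length = w.count true) :
    ((nu w d n).flatten ++ (List.range (w.count false)).map (nf w (d.map szb) n)).Perm
      (List.range' n (d.length + d.count true + w.count false)) := by
  have h1 := un_perm w (d.map szb) n (by rw [List.length_map, h])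
  rw [sum_szb] at h1
  refine List.Perm.trans ?_ h1
  apply List.Perm.append_right
  unfold nu
  exact (List.reverse_perm _).flatten

lemma nu_len {w d : List Bool} {n : ℕ} (h : d.length = w.count true) :
    (nu w d n).flatten.length = d.length + d.count true := by
  have h1 := (nu_perm (n := n) h).length_eq
  rw [List.length_append, List.length_map, List.length_range, List.length_range'] at h1
  omega

lemma nu_ge (w d : List Bool) (n : ℕ) : ∀ a ∈ (nu w d n).flatten, n ≤ a := by
  intro a ha
  obtain ⟨u, hu, ha⟩ := List.mem_flatten.1 ha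
  unfold nu at hu
  rw [List.mem_reverse] at hu
  exact un_ge _ _ _ u hu a ha

lemma nu_length {w d : List Bool} {n : ℕ} (h : d.length = w.count true) :
    (nu w d n).length = d.length := by
  unfold nu
  rw [List.length_reverse, un_length _ _ _ (by rw [List.length_map, h]), List.length_map]

/-- the step map -/
noncomputable def dmap (x z n : ℕ)
    (p : List Bool × List Bool × List Bool × List ℕ × List ℕ) : List ℕ :=
  (nu p.2.1 p.2.2.1 n).flatten ++
    (wv p.1 (frt x z p.2.2.2.2) (p.2.2.2.1.map (nf p.2.1 (p.2.2.1.map szb) n)) ++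
      p.2.2.2.2.drop (x + z))

lemma ds_step {x y z n : ℕ} :
    (x + y).choose x * ((x + y).choose x * (x.choose z *
      ((avL [1, 0, 2] y).card * (ds x z n).card))) ≤ (ds x z (n + (x + z + y))).card := by
  classical
  rw [← card_wd (x + y) x, ← card_wd x z, ← Finset.card_product, ← Finset.card_product,
    ← Finset.card_product, ← Finset.card_product]
  apply Finset.card_le_card_of_injOn (dmap x z n)
  · rintro ⟨w, w', d, β, l⟩ hp
    rw [mem_coe, mem_product, mem_product, mem_product, mem_product] at hp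
    obtain ⟨hw, hw', hd, hβ, hl⟩ := hp
    simp only at hw hw' hd hβ hl
    obtain ⟨w1, w2, w3⟩ := mem_wd hw
    obtain ⟨v1, v2, v3⟩ := mem_wd hw'
    obtain ⟨d1, d2, d3⟩ := mem_wd hd
    rw [mem_avL] at hβ
    rw [mem_ds, mem_avL] at hl
    obtain ⟨⟨hl1, hl2⟩, hl3⟩ := hl
    obtain ⟨u1, u2, u3, u4⟩ := frt_spec hl3
    obtain ⟨β1, β2, β3⟩ := perm_range_facts hβ.1
    obtain ⟨l1, l2, l3⟩ := perm_range_facts hl1
    have hwf : w.count false = y := by omega
    have hvf : w'.count false = y := by omega
    have hdw : d.length = w'.count true := by omega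
    have hUlen : (frt x z l).length = w.count true := by rw [u3, w2]
    have hBlen : (β.map (nf w' (d.map szb) n)).length = w.count false := by
      rw [List.length_map, β1, hwf]
    have hU : ∀ a ∈ (frt x z l).flatten, a < n := by
      intro a ha
      rw [u4] at ha
      exact (l2 a).1 (List.mem_of_mem_take ha)
    have hB : ∀ b ∈ β.map (nf w' (d.map szb) n), n ≤ b := by
      intro b hb
      obtain ⟨i, -, rfl⟩ := List.mem_map.1 hb
      exact nf_ge _ _ _ _
    have f3 := wv_perm w _ _ hUlen hBlen
    rw [u4] at f3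
    rw [mem_coe, mem_ds, mem_avL]
    refine ⟨⟨?_, ?_⟩, ?_⟩
    · have g1 : ((nu w' d n).flatten ++ β.map (nf w' (d.map szb) n)).Perm
          (List.range' n (x + z + y)) := by
        have h2 := nu_perm (n := n) hdw
        rw [d1, d2, hvf] at h2
        exact ((hβ.1.map (nf w' (d.map szb) n)).append_left _).trans h2
      have g2 : List.range (n + (x + z + y)) = List.range n ++ List.range' n (x + z + y) := by
        have h := List.range'_append_1 (s := 0) (m := n) (n := x + z + y)
        rw [zero_add] at h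
        rw [List.range_eq_range', List.range_eq_range', ← h]
      unfold dmap
      simp only
      rw [g2]
      have g3 : ((nu w' d n).flatten ++ (wv w (frt x z l)
          (β.map (nf w' (d.map szb) n)) ++ l.drop (x + z))).Perm
          ((nu w' d n).flatten ++ ((l.take (x + z) ++ β.map (nf w' (d.map szb) n)) ++
            l.drop (x + z))) :=
        (f3.append_right _).append_left _
      refine g3.trans ?_
      have g4 : ((nu w' d n).flatten ++ ((l.take (x + z) ++ β.map (nf w' (d.map szb) n)) ++
          l.drop (x + z))).Perm (((nu w' d n).flatten ++ β.map (nf w' (d.map szb) n)) ++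
          (l.take (x + z) ++ l.drop (x + z))) := by
        rw [List.append_assoc, List.append_assoc]
        apply List.Perm.append_left
        rw [← List.append_assoc, ← List.append_assoc]
        apply List.Perm.append_right
        exact List.perm_append_comm
      refine g4.trans ?_
      rw [List.take_append_drop]
      exact (List.perm_append_comm).trans (hl1.append g1)
    · unfold dmap
      simp only
      apply dbl_avoid (n := n) (nu_shp _ _ _) (nu_dsc _ _ _) (nu_ge _ _ _) u1 u2 hU hB
      · rw [Occ_map_iff (nf_strictMono _ _ _)]; exact hβ.2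
      · intro a ha
        exact (l2 a).1 (List.mem_of_mem_drop ha)
      · rw [u4, List.take_append_drop]; exact hl2
      · exact hUlen
      · exact hBlen
    · unfold dmap
      simp only
      refine ⟨nu w' d n, nu_shp _ _ _, nu_dsc _ _ _, by rw [nu_length hdw, d1], ?_⟩
      have hlen : (nu w' d n).flatten.length = x + z := by rw [nu_len hdw, d1, d2]
      rw [List.take_append_of_le_length (by rw [hlen]), List.take_of_length_le (by rw [hlen])]
  · rintro ⟨w, w', d, β, l⟩ hp ⟨W, W', D, B, L⟩ hP heq
    rw [mem_coe, mem_product, mem_product, mem_product, mem_product] at hp hP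
    obtain ⟨hw, hw', hd, hβ, hl⟩ := hp
    obtain ⟨hW, hW', hD, hB, hL⟩ := hP
    simp only at hw hw' hd hβ hl hW hW' hD hB hL
    obtain ⟨w1, w2, w3⟩ := mem_wd hw
    obtain ⟨v1, v2, v3⟩ := mem_wd hw'
    obtain ⟨d1, d2, d3⟩ := mem_wd hd
    obtain ⟨W1, W2, W3⟩ := mem_wd hW
    obtain ⟨V1, V2, V3⟩ := mem_wd hW'
    obtain ⟨D1, D2, D3⟩ := mem_wd hD
    rw [mem_avL] at hβ hB
    rw [mem_ds, mem_avL] at hl hL
    obtain ⟨⟨hl1, -⟩, hl3⟩ := hl
    obtain ⟨⟨hL1, -⟩, hL3⟩ := hL
    obtain ⟨u1, u2, u3, u4⟩ := frt_spec hl3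
    obtain ⟨U1, U2, U3, U4⟩ := frt_spec hL3
    obtain ⟨β1, β2, β3⟩ := perm_range_facts hβ.1
    obtain ⟨l1, l2, l3⟩ := perm_range_facts hl1
    obtain ⟨B1, B2, B3⟩ := perm_range_facts hB.1
    obtain ⟨L1, L2, L3⟩ := perm_range_facts hL1
    have hwf : w.count false = y := by omega
    have hWf : W.count false = y := by omega
    have hdw : d.length = w'.count true := by omega
    have hDW : D.length = W'.count true := by omega
    unfold dmap at heq
    simp only at heq
    obtain ⟨e1, e2⟩ := List.append_inj heq (by rw [nu_len hdw, nu_len hDW, d1, d2, D1, D2])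
    have q0 := flat_inj (nu_shp _ _ _) (nu_dsc _ _ _) (nu_shp _ _ _) (nu_dsc _ _ _) e1
    unfold nu at q0
    have q1 := List.reverse_injective q0
    have hpos : ∀ (e : List Bool), ∀ s ∈ e.map szb, 1 ≤ s := by
      intro e s hs
      obtain ⟨b, -, rfl⟩ := List.mem_map.1 hs
      cases b <;> simp [szb]
    obtain ⟨q2, q3⟩ := un_inj w' W' (d.map szb) (D.map szb) n (hpos d) (hpos D)
      (by rw [List.length_map, hdw]) (by rw [List.length_map, hDW]) (by rw [v1, V1]) q1
    have q4 : d = D := (List.map_injective_iff.2 szb_inj) q3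
    subst q2
    subst q4
    have hUlen : (frt x z l).length = w.count true := by rw [u3, w2]
    have hUlen' : (frt x z L).length = W.count true := by rw [U3, W2]
    have hBlen : (β.map (nf w' (d.map szb) n)).length = w.count false := by
      rw [List.length_map, β1, hwf]
    have hBlen' : (B.map (nf w' (d.map szb) n)).length = W.count false := by
      rw [List.length_map, B1, hWf]
    have hU : ∀ a ∈ (frt x z l).flatten, a < n := by
      intro a ha
      rw [u4] at ha
      exact (l2 a).1 (List.mem_of_mem_take ha)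
    have hU' : ∀ a ∈ (frt x z L).flatten, a < n := by
      intro a ha
      rw [U4] at ha
      exact (L2 a).1 (List.mem_of_mem_take ha)
    have hBg : ∀ b ∈ β.map (nf w' (d.map szb) n), n ≤ b := by
      intro b hb
      obtain ⟨i, -, rfl⟩ := List.mem_map.1 hb
      exact nf_ge _ _ _ _
    have hBg' : ∀ b ∈ B.map (nf w' (d.map szb) n), n ≤ b := by
      intro b hb
      obtain ⟨i, -, rfl⟩ := List.mem_map.1 hb
      exact nf_ge _ _ _ _
    have lenC : (wv w (frt x z l) (β.map (nf w' (d.map szb) n))).length =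
        (wv W (frt x z L) (B.map (nf w' (d.map szb) n))).length := by
      rw [(wv_perm w _ _ hUlen hBlen).length_eq, (wv_perm W _ _ hUlen' hBlen').length_eq]
      rw [u4, U4, List.length_append, List.length_append, List.length_take,
        List.length_take, List.length_map, List.length_map, l1, L1, β1, B1]
    obtain ⟨e3, e4⟩ := List.append_inj e2 lenC
    have t1 : l.take (x + z) = L.take (x + z) := by
      have a1 := wv_filter_lt w _ _ hUlen hBlen hU hBg
      have a2 := wv_filter_lt W _ _ hUlen' hBlen' hU' hBg'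
      rw [← u4, ← U4, ← a1, ← a2, e3]
    have t2 : β = B := by
      have a1 := wv_filter_ge w _ _ hUlen hBlen hU hBg
      have a2 := wv_filter_ge W _ _ hUlen' hBlen' hU' hBg'
      have a3 : β.map (nf w' (d.map szb) n) = B.map (nf w' (d.map szb) n) := by
        rw [← a1, ← a2, e3]
      exact (List.map_injective_iff.2 (nf_strictMono w' (d.map szb) n).injective) a3
    have t3 : l = L := by
      rw [← List.take_append_drop (x + z) l, ← List.take_append_drop (x + z) L, t1, e4]
    subst t3
    subst t2
    have t4 : w = W := wv_inj w W _ _ hUlen hBlen hUlen' hBlen' hU (by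
      intro u hu
      obtain ⟨a, ha | ha⟩ := u1 u hu <;> subst ha <;> simp) hBg e3
    rw [t4]

lemma ds_base {x z : ℕ} (hz : z ≤ x) : 1 ≤ (ds x z (x + z)).card := by
  classical
  rw [Nat.one_le_iff_ne_zero, ← Nat.pos_iff_ne_zero, Finset.card_pos]
  have h1 : 0 < (wd x z).card := by rw [card_wd]; exact Nat.choose_pos hz
  obtain ⟨d, hd⟩ := Finset.card_pos.1 h1
  obtain ⟨d1, d2, d3⟩ := mem_wd hd
  have hw : d.length = (List.replicate x true).count true := by simp [d1]
  have hp := nu_perm (n := 0) hw
  have hf : (List.replicate x true).count false = 0 := by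
    rw [List.count_replicate]; simp
  rw [hf] at hp
  simp only [List.range_zero, List.map_nil, List.append_nil, add_zero, d1, d2] at hp
  rw [← List.range_eq_range'] at hp
  have hlen : (nu (List.replicate x true) d 0).flatten.length = x + z := by
    rw [nu_len hw, d1, d2]
  refine ⟨(nu (List.replicate x true) d 0).flatten, ?_⟩
  rw [mem_ds, mem_avL]
  refine ⟨⟨hp, ?_⟩, nu (List.replicate x true) d 0, nu_shp _ _ _, nu_dsc _ _ _,
    by rw [nu_length hw, d1], ?_⟩
  · rw [occ1324_iff]
    rintro ⟨a, b, c, e, h1, h2, h3, h4⟩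
    have g1 : List.Sublist [a, b] (nu (List.replicate x true) d 0).flatten := by
      refine List.Sublist.trans ?_ h4
      simp
    have := inc_pair (nu_shp _ _ _) (nu_dsc _ _ _) g1 (by omega)
    omega
  · rw [List.take_of_length_le (by rw [hlen])]

lemma ds_growth {x y z : ℕ} (hz : z ≤ x) (t : ℕ) :
    ((x + y).choose x * ((x + y).choose x * (x.choose z * catalan y))) ^ t ≤
      (avL [0, 2, 1, 3] (t * (x + z + y) + (x + z))).card := by
  have key : ((x + y).choose x * ((x + y).choose x * (x.choose z * catalan y))) ^ t ≤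
      (ds x z (t * (x + z + y) + (x + z))).card := by
    induction t with
    | zero => simpa using ds_base hz
    | succ t ih =>
      have h1 := ds_step (x := x) (y := y) (z := z) (n := t * (x + z + y) + (x + z))
      have e1 : t * (x + z + y) + (x + z) + (x + z + y) = (t + 1) * (x + z + y) + (x + z) := by ring
      rw [e1] at h1
      refine le_trans ?_ h1
      rw [pow_succ]
      calc _ = (x + y).choose x * ((x + y).choose x * (x.choose z * (catalan y *
            ((x + y).choose x * ((x + y).choose x * (x.choose z * catalan y))) ^ t))) := by ring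
        _ ≤ _ := by
          gcongr
          exact cat_le y
  refine key.trans (Finset.card_le_card ?_)
  intro l hl
  exact (mem_ds.1 hl).1

/-- growth at least `a²` -/
def Gr (q : List ℕ) (a : ℝ) : Prop :=
  ∃ c : ℝ, 0 < c ∧ ∀ n : ℕ, c * (a ^ 2) ^ n ≤ (avL q n).card

lemma gr_of_steps {h : ℕ} {q' : List ℕ} (hq : ∃ g ∈ q', h < g) {M x0 : ℕ} (hM : 0 < M)
    {K a : ℝ} (ha : 1 ≤ a) (hK : (a ^ 2) ^ M ≤ K)
    (hstep : ∀ t : ℕ, K ^ t ≤ (avL (h :: q') (t * M + x0)).card) : Gr (h :: q') a := by
  have ha2 : 1 ≤ a ^ 2 := one_le_pow₀ ha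
  have hpos : 0 < (a ^ 2) ^ (x0 + M) := by positivity
  refine ⟨((a ^ 2) ^ (x0 + M))⁻¹, by positivity, fun n => ?_⟩
  rw [inv_mul_le_iff₀ hpos]
  by_cases hn : n < x0
  · have h1 : (1 : ℝ) ≤ (avL (h :: q') n).card := by
      have : (avL (h :: q') 0).card ≤ (avL (h :: q') n).card := avL_mono hq (Nat.zero_le n)
      have h0 := avL_zero (q := h :: q') (by simp)
      exact_mod_cast h0.trans this
    calc (a ^ 2) ^ n ≤ (a ^ 2) ^ (x0 + M) := pow_le_pow_right₀ ha2 (by omega)
      _ ≤ (a ^ 2) ^ (x0 + M) * (avL (h :: q') n).card := le_mul_of_one_le_right hpos.le h1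
  · obtain ⟨t, ht⟩ : ∃ t, t = (n - x0) / M := ⟨_, rfl⟩
    have h1 : t * M ≤ n - x0 := by rw [ht]; exact Nat.div_mul_le_self _ _
    have h2 : n - x0 < (t + 1) * M := by
      rw [ht]
      have := Nat.lt_div_mul_add (a := n - x0) hM
      nlinarith
    have h3 : (avL (h :: q') (t * M + x0)).card ≤ (avL (h :: q') n).card :=
      avL_mono hq (by omega)
    have h4 : ((a ^ 2) ^ M) ^ t ≤ K ^ t := by gcongr
    calc (a ^ 2) ^ n ≤ (a ^ 2) ^ (x0 + M + M * t) := by
          apply pow_le_pow_right₀ ha2
          have : (t + 1) * M = M * t + M := by ring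
          omega
      _ = (a ^ 2) ^ (x0 + M) * ((a ^ 2) ^ M) ^ t := by rw [pow_add, pow_mul]
      _ ≤ (a ^ 2) ^ (x0 + M) * K ^ t := by gcongr
      _ ≤ (a ^ 2) ^ (x0 + M) * (avL (h :: q') n).card := by
          gcongr
          exact (hstep t).trans (by exact_mod_cast h3)

lemma gs_growth {s t : List ℕ} {m x y : ℕ} (hs : ∀ a ∈ s, a < m) (ht : ∀ b ∈ t, m < b)
    (hbase : 1 ≤ (avL (s ++ [m]) x).card) (T : ℕ) :
    ((x + y).choose x * ((x + y).choose x * ((avL (s ++ [m]) x).card *
      (avL (m :: t) y).card))) ^ T ≤ (avL (s ++ m :: t) (T * (x + y) + x)).card := by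
  have key : ((x + y).choose x * ((x + y).choose x * ((avL (s ++ [m]) x).card *
      (avL (m :: t) y).card))) ^ T ≤ (gs s t m x (T * (x + y) + x)).card := by
    induction T with
    | zero =>
      simp only [pow_zero, zero_mul, zero_add]
      refine hbase.trans (Finset.card_le_card ?_)
      intro l hl
      rw [mem_gs]
      rw [mem_avL] at hl ⊢
      refine ⟨⟨hl.1, ?_⟩, ?_⟩
      · rintro ⟨f, hf1, hf2⟩
        apply hl.2
        refine ⟨f, fun a ha b hb hab => hf1 a ?_ b ?_ hab, ?_⟩
        · rw [List.mem_append, List.mem_singleton] at ha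
          rw [List.mem_append, List.mem_cons]
          tauto
        · rw [List.mem_append, List.mem_singleton] at hb
          rw [List.mem_append, List.mem_cons]
          tauto
        · refine List.Sublist.trans ?_ hf2
          apply List.Sublist.map
          apply List.Sublist.append_left
          rw [List.singleton_sublist]; simp
      · have h1 := (perm_range_facts hl.1).1
        rw [List.take_of_length_le (by rw [h1])]
        exact hl.2
    | succ T ih =>
      have h1 := gs_step (x := x) (y := y) (n := T * (x + y) + x) hs ht (by omega)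
      have e1 : T * (x + y) + x + (x + y) = (T + 1) * (x + y) + x := by ring
      rw [e1] at h1
      refine le_trans ?_ h1
      rw [pow_succ]
      calc _ = (x + y).choose x * ((x + y).choose x * ((avL (s ++ [m]) x).card *
            ((avL (m :: t) y).card * ((x + y).choose x * ((x + y).choose x *
              ((avL (s ++ [m]) x).card * (avL (m :: t) y).card))) ^ T))) := by ring
        _ ≤ _ := by gcongr
  refine key.trans (Finset.card_le_card ?_)
  intro l hl
  exact (mem_gs.1 hl).1

lemma gr_glue {h : ℕ} {s t : List ℕ} {m : ℕ} (hs : ∀ a ∈ h :: s, a < m)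
    (ht : ∀ b ∈ t, m < b) {a b c : ℝ} (ha : 0 < a) (hb : 0 < b) (hc1 : 1 ≤ c) (hc : c < a + b)
    (h1 : Gr (h :: s ++ [m]) a) (h2 : Gr (m :: t) b) : Gr (h :: s ++ m :: t) c := by
  obtain ⟨c1, hc1', g1⟩ := h1
  obtain ⟨c2, hc2', g2⟩ := h2
  have hc0 : 0 < c := by linarith
  have hab : 0 < a + b := by linarith
  -- choose `N`
  obtain ⟨N, hN0, hN⟩ : ∃ N : ℕ, 0 < N ∧
      (c ^ 2) ^ N ≤ c1 * c2 * ((a + b) ^ N / ((N : ℝ) + 1)) ^ 2 := by
    have hr : 1 < (a + b) / c := by rw [one_lt_div hc0]; exact hc
    have hlim : Filter.Tendsto (fun N : ℕ => ((N : ℝ) + 1) / ((a + b) / c) ^ N) Filter.atTop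
        (nhds 0) := by
      have l1 := tendsto_pow_const_div_const_pow_of_one_lt 1 hr
      have l2 := tendsto_pow_const_div_const_pow_of_one_lt 0 hr
      have l3 := l1.add l2
      simp only [add_zero] at l3
      refine l3.congr (fun N => ?_)
      rw [pow_one, pow_zero, ← add_div]
    have hsq : 0 < Real.sqrt (c1 * c2) := Real.sqrt_pos.2 (by positivity)
    have hev := (hlim.eventually (gt_mem_nhds hsq)).and (Filter.eventually_gt_atTop 0)
    obtain ⟨N, hN1, hN2⟩ := hev.exists
    refine ⟨N, hN2, ?_⟩
    have hrN : 0 < ((a + b) / c) ^ N := by positivity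
    rw [div_lt_iff₀ hrN] at hN1
    have hN1' : ((N : ℝ) + 1) * c ^ N ≤ Real.sqrt (c1 * c2) * (a + b) ^ N := by
      rw [div_pow] at hN1
      have : Real.sqrt (c1 * c2) * ((a + b) ^ N / c ^ N) * c ^ N =
        Real.sqrt (c1 * c2) * (a + b) ^ N := by
        rw [mul_assoc, div_mul_cancel₀ _ (by positivity)]
      rw [← this]
      exact mul_le_mul_of_nonneg_right hN1.le (by positivity)
    have hN3 : c ^ N ≤ Real.sqrt (c1 * c2) * ((a + b) ^ N / ((N : ℝ) + 1)) := by
      rw [← mul_div_assoc, le_div_iff₀ (by positivity), mul_comm]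
      exact hN1'
    calc (c ^ 2) ^ N = (c ^ N) ^ 2 := by rw [← pow_mul, ← pow_mul, mul_comm]
      _ ≤ (Real.sqrt (c1 * c2) * ((a + b) ^ N / ((N : ℝ) + 1))) ^ 2 := by gcongr
      _ = c1 * c2 * ((a + b) ^ N / ((N : ℝ) + 1)) ^ 2 := by
          rw [mul_pow, Real.sq_sqrt (by positivity)]
  -- pigeonhole
  obtain ⟨x, hx, hbig⟩ : ∃ x ∈ range (N + 1), (a + b) ^ N / ((N : ℝ) + 1) ≤
      a ^ x * b ^ (N - x) * (N.choose x) := by
    by_contra hcon
    push Not at hcon
    have h5 : ∑ x ∈ range (N + 1), a ^ x * b ^ (N - x) * (N.choose x) <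
        ∑ _x ∈ range (N + 1), (a + b) ^ N / ((N : ℝ) + 1) :=
      Finset.sum_lt_sum_of_nonempty ⟨0, by simp⟩ hcon
    rw [← add_pow, Finset.sum_const, Finset.card_range, nsmul_eq_mul] at h5
    push_cast at h5
    rw [mul_div_cancel₀ _ (by positivity)] at h5
    exact lt_irrefl _ h5
  rw [mem_range] at hx
  obtain ⟨y, hy⟩ : ∃ y, N = x + y := ⟨N - x, by omega⟩
  have hNx : N - x = y := by omega
  rw [hNx] at hbig
  have hA : 1 ≤ (avL (h :: s ++ [m]) x).card := by
    have := g1 x
    have h6 : (0 : ℝ) < (avL (h :: s ++ [m]) x).card := lt_of_lt_of_le (by positivity) this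
    exact_mod_cast h6
  obtain ⟨K, hK⟩ : ∃ K : ℕ, K = ((x + y).choose x * ((x + y).choose x *
    ((avL (h :: s ++ [m]) x).card * (avL (m :: t) y).card))) := ⟨_, rfl⟩
  have hKge : (c ^ 2) ^ N ≤ (K : ℝ) := by
    refine hN.trans ?_
    calc c1 * c2 * ((a + b) ^ N / ((N : ℝ) + 1)) ^ 2
        ≤ c1 * c2 * (a ^ x * b ^ y * (N.choose x)) ^ 2 := by gcongr
      _ = (N.choose x : ℝ) * ((N.choose x : ℝ) * ((c1 * (a ^ 2) ^ x) * (c2 * (b ^ 2) ^ y))) := by
          rw [← pow_mul, ← pow_mul, mul_comm 2 x, mul_comm 2 y, pow_mul, pow_mul]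
          ring
      _ ≤ (N.choose x : ℝ) * ((N.choose x : ℝ) * (((avL (h :: s ++ [m]) x).card : ℝ) *
            ((avL (m :: t) y).card : ℝ))) := by
          have := g1 x
          have := g2 y
          gcongr
      _ = (K : ℝ) := by rw [hK, hy]; push_cast; ring
  have hq : ∃ g ∈ (s ++ m :: t), h < g := ⟨m, by simp, hs h (by simp)⟩
  have := gr_of_steps (h := h) (q' := s ++ m :: t) hq (M := N) (x0 := x) hN0 (K := (K : ℝ)) hc1
    hKge (fun T => by
      have h7 := gs_growth (s := h :: s) (t := t) (y := y) hs ht hA T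
      rw [← hK, ← hy] at h7
      rw [List.cons_append] at h7
      exact_mod_cast h7)
  exact this

end Pool.Agent.Q296.DP
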