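import Pool.Agent.Q296.DP.Growth

/-! The numerical inequality for 1324. -/

set_option autoImplicit false
set_option exponentiation.threshold 2000

namespace Pool.Agent.Q296.DP

lemma num_fact : 601 ^ 1200 * ((Nat.factorial 200 * Nat.factorial 381) ^ 2 *
    ((Nat.factorial 19 * Nat.factorial 181) *
      (382 * (Nat.factorial 381 * Nat.factorial 381)))) ≤ 200 ^ 1200 *
    (Nat.factorial 581 ^ 2 * (Nat.factorial 200 * Nat.factorial 762)) := by
  norm_num1

lemma num_gen {X Y A B C f200 f381 f19 f181 f581 f762 : ℕ} (p200 : 0 < f200) (p381 : 0 < f381)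
    (p19 : 0 < f19) (p181 : 0 < f181)
    (h : X * ((f200 * f381) ^ 2 * ((f19 * f181) * (382 * (f381 * f381)))) ≤
      Y * (f581 ^ 2 * (f200 * f762)))
    (a1 : A * (f200 * f381) = f581) (b1 : B * (f19 * f181) = f200)
    (c1 : C * (382 * (f381 * f381)) = f762) : X ≤ Y * (A * (A * (B * C))) := by
  have hpos : 0 < (f200 * f381) ^ 2 * ((f19 * f181) * (382 * (f381 * f381))) := by positivity
  apply Nat.le_of_mul_le_mul_right _ hpos
  refine h.trans (le_of_eq ?_)
  rw [← a1, ← c1]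
  conv_lhs => rw [← b1]
  conv_rhs => rw [← b1]
  ring

lemma chs {n k j : ℕ} (h : n = k + j) :
    n.choose k * (k.factorial * j.factorial) = n.factorial := by
  have := Nat.choose_mul_factorial_mul_factorial (n := n) (k := k) (by omega)
  rw [← this, h]
  simp [mul_assoc]

lemma cat_fact {k k1 k2 : ℕ} (e1 : k1 = k + 1) (e2 : k2 = 2 * k) :
    catalan k * (k1 * (k.factorial * k.factorial)) = k2.factorial := by
  rw [e1, e2]
  have h1 := succ_mul_catalan_eq_centralBinom k
  have h2 := chs (n := 2 * k) (k := k) (j := k) (by ring)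
  rw [Nat.centralBinom_eq_two_mul_choose] at h1
  rw [← h2, ← h1]; ring

lemma num_ineq {A B C : ℕ} (hA : A = (581 : ℕ).choose 200) (hB : B = (200 : ℕ).choose 19)
    (hC : C = catalan 381) : 601 ^ 1200 ≤ 200 ^ 1200 * (A * (A * (B * C))) := by
  have a1 := chs (n := 581) (k := 200) (j := 381) (by norm_num)
  have b1 := chs (n := 200) (k := 19) (j := 181) (by norm_num)
  have c1 := cat_fact (k := 381) (k1 := 382) (k2 := 762) (by norm_num) (by norm_num)
  rw [← hA] at a1
  rw [← hB] at b1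
  rw [← hC] at c1
  have h := num_fact
  generalize Nat.factorial 200 = f200 at a1 b1 c1 h
  exact num_gen (by
    rcases Nat.eq_zero_or_pos f200 with h0 | h0
    · exfalso
      rw [h0] at a1
      simp only [zero_mul, mul_zero] at a1
      exact absurd a1.symm (Nat.factorial_ne_zero _)
    · exact h0) (Nat.factorial_pos 381) (Nat.factorial_pos 19)
    (Nat.factorial_pos 181) h a1 b1 c1

lemma gr_abs {K : ℕ} {M x0 : ℕ} (hM : M = 600) (h : 601 ^ 1200 ≤ 200 ^ 1200 * K)
    (hs : ∀ t : ℕ, K ^ t ≤ (avL [0, 2, 1, 3] (t * M + x0)).card) :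
    Gr [0, 2, 1, 3] (3005 / 1000) := by
  apply gr_of_steps (h := 0) (q' := [2, 1, 3]) ⟨2, by simp, by norm_num⟩ (M := M)
    (x0 := x0) (by omega) (K := (K : ℝ)) (by norm_num)
  · have h2 : ((601 : ℝ)) ^ 1200 ≤ 200 ^ 1200 * (K : ℝ) := by exact_mod_cast h
    have h3 : (((3005 : ℝ) / 1000) ^ 2) ^ M = 601 ^ 1200 / 200 ^ 1200 := by
      rw [hM, ← pow_mul, ← div_pow]
      have : (3005 : ℝ) / 1000 = 601 / 200 := by norm_num
      rw [this]
    rw [h3, div_le_iff₀ (by positivity), mul_comm]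
    exact h2
  · intro t
    exact_mod_cast hs t

lemma gr_1324 : Gr [0, 2, 1, 3] (3005 / 1000) := by
  obtain ⟨A, hA⟩ : ∃ A, A = (581 : ℕ).choose 200 := ⟨_, rfl⟩
  obtain ⟨B, hB⟩ : ∃ B, B = (200 : ℕ).choose 19 := ⟨_, rfl⟩
  obtain ⟨C, hC⟩ : ∃ C, C = catalan 381 := ⟨_, rfl⟩
  have h1 := num_ineq hA hB hC
  have h2 : ∀ t : ℕ, (A * (A * (B * C))) ^ t ≤
      (avL [0, 2, 1, 3] (t * (200 + 19 + 381) + (200 + 19))).card := by
    intro t
    have := ds_growth (x := 200) (y := 381) (z := 19) (by norm_num) t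
    rw [show (200 + 381 : ℕ) = 581 from rfl, ← hA, ← hB, ← hC] at this
    exact this
  exact gr_abs rfl h1 h2

end Pool.Agent.Q296.DP
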