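import Mathlib

/-! Distant patterns: definitions and the upper bound for increasing distant patterns. -/

set_option autoImplicit false

namespace Pool.Agent.Q296.DP

open Finset

/-- `π` contains the distant pattern `dist_r(q)`. -/
def Contains {m n : ℕ} (r : ℕ) (q : Equiv.Perm (Fin m)) (π : Equiv.Perm (Fin n)) : Prop :=
  ∃ i : Fin m → Fin n, (∀ j k : Fin m, (j : ℕ) + 1 = k → (i j : ℕ) + r + 1 ≤ i k) ∧
    ∀ j k : Fin m, q j < q k ↔ π (i j) < π (i k)

/-- the number of permutations of length `n` avoiding `dist_r(q)` -/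
noncomputable def av {m : ℕ} (r : ℕ) (q : Equiv.Perm (Fin m)) (n : ℕ) : ℕ :=
  Nat.card {π : Equiv.Perm (Fin n) // ¬ Contains r q π}

/-- there is a chain of `k + 1` elements ending at position `p` -/
def Ch {n : ℕ} (r : ℕ) (π : Equiv.Perm (Fin n)) : ℕ → Fin n → Prop
  | 0, _ => True
  | k + 1, p => ∃ p' : Fin n, (p' : ℕ) + r + 1 ≤ p ∧ π p' < π p ∧ Ch r π k p'

lemma Ch_seq {n r : ℕ} {π : Equiv.Perm (Fin n)} : ∀ (k : ℕ) (p : Fin n), Ch r π k p →
    ∃ i : Fin (k + 1) → Fin n, i (Fin.last k) = p ∧
      (∀ j j' : Fin (k + 1), (j : ℕ) + 1 = j' → (i j : ℕ) + r + 1 ≤ i j') ∧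
      ∀ j j' : Fin (k + 1), (j : ℕ) + 1 = j' → π (i j) < π (i j') := by
  intro k
  induction k with
  | zero =>
    intro p _
    refine ⟨fun _ => p, rfl, fun j j' h => ?_, fun j j' h => ?_⟩
    · have := j.2; have := j'.2; omega
    · have := j.2; have := j'.2; omega
  | succ k ih =>
    intro p hp
    obtain ⟨p', h1, h2, h3⟩ := hp
    obtain ⟨i, hi, hi1, hi2⟩ := ih p' h3
    refine ⟨Fin.snoc i p, by simp, fun j j' h => ?_, fun j j' h => ?_⟩
    · have hj : (j : ℕ) < k + 1 := by have := j'.2; omega
      obtain ⟨j0, rfl⟩ : ∃ j0 : Fin (k + 1), j = Fin.castSucc j0 := ⟨⟨j, hj⟩, rfl⟩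
      rw [Fin.snoc_castSucc]
      by_cases hj' : (j' : ℕ) < k + 1
      · obtain ⟨j1, rfl⟩ : ∃ j1 : Fin (k + 1), j' = Fin.castSucc j1 := ⟨⟨j', hj'⟩, rfl⟩
        rw [Fin.snoc_castSucc]
        exact hi1 j0 j1 (by simpa using h)
      · have e1 : j' = Fin.last (k + 1) := by
          apply Fin.ext; have := j'.2; simp only [Fin.val_last]; omega
        have e2 : j0 = Fin.last k := by
          apply Fin.ext
          simp only [Fin.val_last]
          rw [e1] at h
          simp only [Fin.val_castSucc, Fin.val_last] at h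
          omega
        rw [e1, Fin.snoc_last, e2, hi]; exact h1
    · have hj : (j : ℕ) < k + 1 := by have := j'.2; omega
      obtain ⟨j0, rfl⟩ : ∃ j0 : Fin (k + 1), j = Fin.castSucc j0 := ⟨⟨j, hj⟩, rfl⟩
      rw [Fin.snoc_castSucc]
      by_cases hj' : (j' : ℕ) < k + 1
      · obtain ⟨j1, rfl⟩ : ∃ j1 : Fin (k + 1), j' = Fin.castSucc j1 := ⟨⟨j', hj'⟩, rfl⟩
        rw [Fin.snoc_castSucc]
        exact hi2 j0 j1 (by simpa using h)
      · have e1 : j' = Fin.last (k + 1) := by
          apply Fin.ext; have := j'.2; simp only [Fin.val_last]; omega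
        have e2 : j0 = Fin.last k := by
          apply Fin.ext
          simp only [Fin.val_last]
          rw [e1] at h
          simp only [Fin.val_castSucc, Fin.val_last] at h
          omega
        rw [e1, Fin.snoc_last, e2, hi]; exact h2

lemma exists_label {n r w : ℕ} {π : Equiv.Perm (Fin n)}
    (hπ : ¬ Contains r (1 : Equiv.Perm (Fin (w + 1))) π) :
    ∃ l : Fin n → Fin w, ∀ p p' : Fin n, (p : ℕ) + r + 1 ≤ p' → π p < π p' → l p < l p' := by
  classical
  have hno : ∀ p, ¬ Ch r π w p := by
    intro p hp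
    obtain ⟨i, -, h1, h2⟩ := Ch_seq w p hp
    apply hπ
    refine ⟨i, h1, fun j k => ?_⟩
    have hmono : StrictMono (fun j => π (i j)) := by
      rw [Fin.strictMono_iff_lt_succ]
      intro j
      exact h2 _ _ (by simp)
    rw [Equiv.Perm.one_apply, Equiv.Perm.one_apply]
    exact hmono.lt_iff_lt.symm
  have hlt : ∀ p, Nat.findGreatest (fun k => Ch r π k p) w < w := by
    intro p
    rcases Nat.lt_or_ge (Nat.findGreatest (fun k => Ch r π k p) w) w with h | h
    · exact h
    · exfalso
      have hle := Nat.findGreatest_le (P := fun k => Ch r π k p) w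
      have he : Nat.findGreatest (fun k => Ch r π k p) w = w := le_antisymm hle h
      have hspec : Ch r π (Nat.findGreatest (fun k => Ch r π k p) w) p :=
        Nat.findGreatest_spec (P := fun k => Ch r π k p) (Nat.zero_le w) trivial
      rw [he] at hspec
      exact hno p hspec
  refine ⟨fun p => ⟨_, hlt p⟩, fun p p' h1 h2 => ?_⟩
  rw [Fin.lt_def]
  simp only
  have hspec : Ch r π (Nat.findGreatest (fun k => Ch r π k p) w) p :=
    Nat.findGreatest_spec (P := fun k => Ch r π k p) (Nat.zero_le w) trivial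
  have h3 : Ch r π (Nat.findGreatest (fun k => Ch r π k p) w + 1) p' := ⟨p, h1, h2, hspec⟩
  have h4 := Nat.le_findGreatest (P := fun k => Ch r π k p') (Nat.succ_le_of_lt (hlt p)) h3
  omega

section enc
variable {n r w : ℕ}

/-- the small jumps inside a label class -/
noncomputable def Dset (π : Equiv.Perm (Fin n)) (l : Fin n → Fin w) (r : ℕ) (p : Fin n) :
    Finset (Fin r) := by
  classical
  exact univ.filter (fun j : Fin r => ∃ p2 : Fin n, (p2 : ℕ) + (j + 1) = p ∧ l p2 = l p ∧ π p2 < π p)

/-- the code of a position -/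
noncomputable def sco (π : Equiv.Perm (Fin n)) (l : Fin n → Fin w) (r : ℕ) (p : Fin n) :
    Fin w ⊕ Finset (Fin r) := by
  classical
  exact if Dset π l r p = ∅ then Sum.inl (l p) else Sum.inr (Dset π l r p)

lemma mem_Dset {π : Equiv.Perm (Fin n)} {l : Fin n → Fin w} {p : Fin n} {j : Fin r} :
    j ∈ Dset π l r p ↔ ∃ p2 : Fin n, (p2 : ℕ) + (j + 1) = p ∧ l p2 = l p ∧ π p2 < π p := by
  classical
  unfold Dset
  rw [mem_filter]
  simp

lemma dec_label {π π' : Equiv.Perm (Fin n)} {l l' : Fin n → Fin w}
    (h : ∀ p, sco π l r p = sco π' l' r p) : ∀ p, l p = l' p := by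
  have key : ∀ N : ℕ, ∀ p : Fin n, (p : ℕ) = N → l p = l' p := by
    intro N
    induction N using Nat.strong_induction_on with
    | _ N ih =>
      intro p hp
      have hs := h p
      unfold sco at hs
      by_cases h1 : Dset π l r p = ∅
      · rw [if_pos h1] at hs
        by_cases h2 : Dset π' l' r p = ∅
        · rw [if_pos h2] at hs
          exact Sum.inl.inj hs
        · rw [if_neg h2] at hs
          cases hs
      · rw [if_neg h1] at hs
        by_cases h2 : Dset π' l' r p = ∅
        · rw [if_pos h2] at hs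
          cases hs
        · rw [if_neg h2] at hs
          have h3 : Dset π l r p = Dset π' l' r p := Sum.inr.inj hs
          obtain ⟨j, hj⟩ := Finset.nonempty_iff_ne_empty.2 h1
          have hj' := hj
          rw [h3] at hj'
          rw [mem_Dset] at hj hj'
          obtain ⟨p2, e1, e2, -⟩ := hj
          obtain ⟨p3, f1, f2, -⟩ := hj'
          have e3 : p2 = p3 := by apply Fin.ext; omega
          rw [← e2, ← f2, ← e3]
          exact ih p2 (by omega) p2 rfl
  exact fun p => key p p rfl

lemma dec_D {π π' : Equiv.Perm (Fin n)} {l l' : Fin n → Fin w}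
    (h : ∀ p, sco π l r p = sco π' l' r p) (p : Fin n) : Dset π l r p = Dset π' l' r p := by
  have hs := h p
  unfold sco at hs
  by_cases h1 : Dset π l r p = ∅
  · rw [if_pos h1] at hs
    by_cases h2 : Dset π' l' r p = ∅
    · rw [h1, h2]
    · rw [if_neg h2] at hs
      cases hs
  · rw [if_neg h1] at hs
    by_cases h2 : Dset π' l' r p = ∅
    · rw [if_pos h2] at hs
      cases hs
    · rw [if_neg h2] at hs
      exact Sum.inr.inj hs

lemma dec_lt {π π' : Equiv.Perm (Fin n)} {l : Fin n → Fin w}
    (hl : ∀ p p' : Fin n, (p : ℕ) + r + 1 ≤ p' → π p < π p' → l p < l p')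
    (hl' : ∀ p p' : Fin n, (p : ℕ) + r + 1 ≤ p' → π' p < π' p' → l p < l p')
    (hD : ∀ p, Dset π l r p = Dset π' l r p) {p2 p : Fin n} (h2 : l p2 = l p) :
    π p2 < π p ↔ π' p2 < π' p := by
  have key : ∀ a b : Fin n, (a : ℕ) < b → l a = l b → (π a < π b ↔ π' a < π' b) := by
    intro a b hab hlab
    by_cases hr : (a : ℕ) + r + 1 ≤ b
    · constructor
      · intro h
        have := hl a b hr h
        rw [hlab] at this
        exact absurd this (lt_irrefl _)
      · intro h
        have := hl' a b hr h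
        rw [hlab] at this
        exact absurd this (lt_irrefl _)
    · have hj : (b : ℕ) - a - 1 < r := by omega
      have e1 : π a < π b ↔ (⟨(b : ℕ) - a - 1, hj⟩ : Fin r) ∈ Dset π l r b := by
        rw [mem_Dset]
        constructor
        · intro h
          exact ⟨a, by simp only; omega, hlab, h⟩
        · rintro ⟨a', h1, h2, h3⟩
          have : a' = a := by apply Fin.ext; simp only at h1; omega
          rw [this] at h3; exact h3
      have e2 : π' a < π' b ↔ (⟨(b : ℕ) - a - 1, hj⟩ : Fin r) ∈ Dset π' l r b := by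
        rw [mem_Dset]
        constructor
        · intro h
          exact ⟨a, by simp only; omega, hlab, h⟩
        · rintro ⟨a', h1, h2, h3⟩
          have : a' = a := by apply Fin.ext; simp only at h1; omega
          rw [this] at h3; exact h3
      rw [e1, e2, hD]
  rcases lt_trichotomy (p2 : ℕ) p with h | h | h
  · exact key p2 p h h2
  · have : p2 = p := Fin.ext h
    rw [this]; simp
  · have h3 := key p p2 h h2.symm
    have hne : p2 ≠ p := fun e => by rw [e] at h; exact lt_irrefl _ h
    have a1 : π p2 < π p ↔ ¬ π p < π p2 := by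
      rw [not_lt, le_iff_lt_or_eq]
      constructor
      · exact Or.inl
      · rintro (h | h)
        · exact h
        · exact absurd (π.injective h) hne
    have a2 : π' p2 < π' p ↔ ¬ π' p < π' p2 := by
      rw [not_lt, le_iff_lt_or_eq]
      constructor
      · exact Or.inl
      · rintro (h | h)
        · exact h
        · exact absurd (π'.injective h) hne
    rw [a1, a2, h3]

lemma dec_perm {π π' : Equiv.Perm (Fin n)} {l : Fin n → Fin w}
    (hv : ∀ y, l (π.symm y) = l (π'.symm y))
    (hlt : ∀ p2 p : Fin n, l p2 = l p → (π p2 < π p ↔ π' p2 < π' p)) : π = π' := by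
  classical
  have main : ∀ (a b : Equiv.Perm (Fin n)), (∀ y, l (a.symm y) = l (b.symm y)) →
      (∀ p2 p : Fin n, l p2 = l p → (a p2 < a p ↔ b p2 < b p)) → ∀ p, ¬ a p < b p := by
    intro a b hv hlt p hp
    have c1 : (univ.filter (fun p2 => l p2 = l p ∧ a p2 < a p)).card =
        (univ.filter (fun z => l (a.symm z) = l p ∧ z < a p)).card := by
      apply Finset.card_bij (fun p2 _ => a p2)
      · intro p2 h
        rw [mem_filter] at h ⊢
        refine ⟨mem_univ _, ?_, h.2.2⟩
        rw [Equiv.symm_apply_apply]; exact h.2.1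
      · intro x _ y _ h; exact a.injective h
      · intro z hz
        rw [mem_filter] at hz
        refine ⟨a.symm z, ?_, Equiv.apply_symm_apply _ _⟩
        rw [mem_filter]
        refine ⟨mem_univ _, hz.2.1, ?_⟩
        rw [Equiv.apply_symm_apply]; exact hz.2.2
    have c2 : (univ.filter (fun p2 => l p2 = l p ∧ b p2 < b p)).card =
        (univ.filter (fun z => l (b.symm z) = l p ∧ z < b p)).card := by
      apply Finset.card_bij (fun p2 _ => b p2)
      · intro p2 h
        rw [mem_filter] at h ⊢
        refine ⟨mem_univ _, ?_, h.2.2⟩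
        rw [Equiv.symm_apply_apply]; exact h.2.1
      · intro x _ y _ h; exact b.injective h
      · intro z hz
        rw [mem_filter] at hz
        refine ⟨b.symm z, ?_, Equiv.apply_symm_apply _ _⟩
        rw [mem_filter]
        refine ⟨mem_univ _, hz.2.1, ?_⟩
        rw [Equiv.apply_symm_apply]; exact hz.2.2
    have c3 : (univ.filter (fun p2 => l p2 = l p ∧ a p2 < a p)) =
        (univ.filter (fun p2 => l p2 = l p ∧ b p2 < b p)) := by
      apply Finset.filter_congr
      intro p2 _
      constructor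
      · rintro ⟨h1, h2⟩; exact ⟨h1, (hlt p2 p h1).1 h2⟩
      · rintro ⟨h1, h2⟩; exact ⟨h1, (hlt p2 p h1).2 h2⟩
    have c4 : (univ.filter (fun z => l (a.symm z) = l p ∧ z < a p)).card <
        (univ.filter (fun z => l (b.symm z) = l p ∧ z < b p)).card := by
      apply Finset.card_lt_card
      rw [Finset.ssubset_iff_of_subset]
      · refine ⟨a p, ?_, ?_⟩
        · rw [mem_filter]
          refine ⟨mem_univ _, ?_, hp⟩
          rw [← hv, Equiv.symm_apply_apply]
        · rw [mem_filter]
          rintro ⟨-, -, h⟩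
          exact lt_irrefl _ h
      · intro z hz
        rw [mem_filter] at hz ⊢
        refine ⟨mem_univ _, ?_, lt_trans hz.2.2 hp⟩
        rw [← hv]; exact hz.2.1
    rw [← c1, ← c2, c3] at c4
    exact lt_irrefl _ c4
  apply Equiv.ext
  intro p
  have h1 := main π π' hv hlt p
  have h2 := main π' π (fun y => (hv y).symm) (fun p2 p h => (hlt p2 p h).symm) p
  exact le_antisymm (not_lt.1 h2) (not_lt.1 h1)

end enc

/-- the upper bound -/
theorem av_le (n r w : ℕ) : av r (1 : Equiv.Perm (Fin (w + 1))) n ≤ (w * (w + 2 ^ r)) ^ n := by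
  classical
  have hch : ∀ π : {π : Equiv.Perm (Fin n) // ¬ Contains r (1 : Equiv.Perm (Fin (w + 1))) π},
      ∃ l : Fin n → Fin w, ∀ p p' : Fin n, (p : ℕ) + r + 1 ≤ p' → π.1 p < π.1 p' → l p < l p' :=
    fun π => exists_label π.2
  choose L hL using hch
  have hinj : Function.Injective (fun π : {π : Equiv.Perm (Fin n) //
      ¬ Contains r (1 : Equiv.Perm (Fin (w + 1))) π} =>
      (fun y : Fin n => (L π (π.1.symm y), sco π.1 (L π) r y))) := by
    intro π π' h
    have hs : ∀ p, sco π.1 (L π) r p = sco π'.1 (L π') r p :=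
      fun p => (Prod.ext_iff.1 (congrFun h p)).2
    have hv : ∀ y, L π (π.1.symm y) = L π' (π'.1.symm y) :=
      fun p => (Prod.ext_iff.1 (congrFun h p)).1
    have hl : L π = L π' := funext (dec_label hs)
    have hD := dec_D hs
    rw [← hl] at hD hv
    have hL' := hL π'
    rw [← hl] at hL'
    apply Subtype.ext
    exact dec_perm hv (fun p2 p h2 => dec_lt (hL π) hL' hD h2)
  unfold av
  refine le_trans (Nat.card_le_card_of_injective _ hinj) (le_of_eq ?_)
  rw [Nat.card_eq_fintype_card]
  simp

end Pool.Agent.Q296.DP
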