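import Mathlib

/-! Words avoiding classical patterns. -/

set_option autoImplicit false

namespace Pool.Agent.Q296.DP

open Finset

/-- the word `l` contains the pattern word `q` -/
def Occ (q l : List ℕ) : Prop :=
  ∃ f : ℕ → ℕ, (∀ a ∈ q, ∀ b ∈ q, a < b → f a < f b) ∧ List.Sublist (q.map f) l

lemma Occ.mono {q l l' : List ℕ} (h : Occ q l) (hl : List.Sublist l l') : Occ q l' := by
  obtain ⟨f, h1, h2⟩ := h
  exact ⟨f, h1, h2.trans hl⟩

lemma Occ_map_iff {g : ℕ → ℕ} (hg : StrictMono g) {q l : List ℕ} :
    Occ q (l.map g) ↔ Occ q l := by
  constructor
  · rintro ⟨f, h1, h2⟩
    have hinv : ∀ i, Function.invFun g (g i) = i := Function.leftInverse_invFun hg.injective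
    have hmem : ∀ a ∈ q, ∃ i, g i = f a := by
      intro a ha
      have : f a ∈ l.map g := h2.subset (List.mem_map_of_mem ha)
      obtain ⟨i, -, hi⟩ := List.mem_map.1 this
      exact ⟨i, hi⟩
    refine ⟨fun a => Function.invFun g (f a), fun a ha b hb hab => ?_, ?_⟩
    · obtain ⟨i, hi⟩ := hmem a ha
      obtain ⟨j, hj⟩ := hmem b hb
      have := h1 a ha b hb hab
      simp only
      rw [← hi, ← hj, hinv, hinv]
      rw [← hi, ← hj] at this
      exact hg.lt_iff_lt.1 this
    · have h3 := h2.map (Function.invFun g)
      rw [List.map_map, List.map_map] at h3
      have e : l.map (Function.invFun g ∘ g) = l := by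
        have : (Function.invFun g ∘ g) = id := funext hinv
        rw [this, List.map_id]
      rw [e] at h3
      exact h3
  · rintro ⟨f, h1, h2⟩
    refine ⟨fun a => g (f a), fun a ha b hb hab => hg (h1 a ha b hb hab), ?_⟩
    have h3 := h2.map g
    rw [List.map_map] at h3
    exact h3

lemma Occ_shift {g : ℕ → ℕ} (hg : StrictMono g) {q l : List ℕ} :
    Occ (q.map g) l ↔ Occ q l := by
  have hinv : ∀ i, Function.invFun g (g i) = i := Function.leftInverse_invFun hg.injective
  constructor
  · rintro ⟨f, h1, h2⟩
    refine ⟨fun a => f (g a), fun a ha b hb hab => ?_, ?_⟩
    · exact h1 _ (List.mem_map_of_mem ha) _ (List.mem_map_of_mem hb) (hg hab)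
    · rw [List.map_map] at h2
      exact h2
  · rintro ⟨f, h1, h2⟩
    refine ⟨fun a => f (Function.invFun g a), fun a ha b hb hab => ?_, ?_⟩
    · obtain ⟨i, hi, rfl⟩ := List.mem_map.1 ha
      obtain ⟨j, hj, rfl⟩ := List.mem_map.1 hb
      simp only [hinv]
      exact h1 i hi j hj (hg.lt_iff_lt.1 hab)
    · rw [List.map_map]
      have : ((fun a => f (Function.invFun g a)) ∘ g) = f := by
        funext i
        simp only [Function.comp_apply, hinv]
      rw [this]; exact h2

/-- words that are permutations of `0, …, n-1` and avoid `q` -/
noncomputable def avL (q : List ℕ) (n : ℕ) : Finset (List ℕ) := by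
  classical
  exact (List.range n).permutations.toFinset.filter (fun l => ¬ Occ q l)

lemma mem_avL {q l : List ℕ} {n : ℕ} :
    l ∈ avL q n ↔ l.Perm (List.range n) ∧ ¬ Occ q l := by
  classical
  unfold avL
  rw [mem_filter, List.mem_toFinset, List.mem_permutations]

lemma avL_zero {q : List ℕ} (hq : q ≠ []) : 1 ≤ (avL q 0).card := by
  rw [Nat.one_le_iff_ne_zero, ← Nat.pos_iff_ne_zero, Finset.card_pos]
  refine ⟨[], mem_avL.2 ⟨by simp, ?_⟩⟩
  rintro ⟨f, -, h⟩
  rw [List.sublist_nil] at h
  exact hq (List.map_eq_nil_iff.1 h)

lemma avL_succ {h : ℕ} {q' : List ℕ} (hq : ∃ g ∈ q', h < g) (n : ℕ) :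
    (avL (h :: q') n).card ≤ (avL (h :: q') (n + 1)).card := by
  apply Finset.card_le_card_of_injOn (fun l => n :: l)
  · intro l hl
    rw [mem_coe, mem_avL] at hl ⊢
    obtain ⟨h1, h2⟩ := hl
    refine ⟨?_, ?_⟩
    · rw [List.range_succ]
      exact (h1.cons n).trans (List.perm_append_singleton n (List.range n)).symm
    · rintro ⟨f, hf1, hf2⟩
      rw [List.map_cons] at hf2
      obtain ⟨g, hg, hhg⟩ := hq
      rcases List.sublist_cons_iff.1 hf2 with h3 | ⟨l', h3, h4⟩
      · exact h2 ⟨f, hf1, by rw [List.map_cons]; exact h3⟩
      · injection h3 with h5 h6
        have h7 : f h < f g := hf1 h (by simp) g (by simp [hg]) hhg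
        rw [← h6] at h4
        have h8 : f g ∈ l := h4.subset (List.mem_map_of_mem hg)
        have h9 : f g ∈ List.range n := h1.subset h8
        rw [List.mem_range] at h9
        omega
  · intro a _ b _ hab
    simpa using hab

lemma avL_mono {h : ℕ} {q' : List ℕ} (hq : ∃ g ∈ q', h < g) {n n' : ℕ} (hn : n ≤ n') :
    (avL (h :: q') n).card ≤ (avL (h :: q') n').card := by
  induction n' with
  | zero => rw [Nat.le_zero.1 hn]
  | succ k ih =>
    rcases Nat.lt_or_ge n (k + 1) with h1 | h1
    · exact (ih (by omega)).trans (avL_succ hq k)
    · rw [le_antisymm hn h1]

/-! ### Boolean words -/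

/-- words of length `N` with `x` letters `true` -/
def wd : ℕ → ℕ → Finset (List Bool)
  | 0, 0 => {[]}
  | 0, _ + 1 => ∅
  | N + 1, 0 => (wd N 0).image (fun w => false :: w)
  | N + 1, x + 1 => (wd N x).image (fun w => true :: w) ∪ (wd N (x + 1)).image (fun w => false :: w)

lemma mem_wd : ∀ {N x : ℕ} {w : List Bool}, w ∈ wd N x →
    w.length = N ∧ w.count true = x ∧ w.count false + x = N := by
  intro N
  induction N with
  | zero =>
    intro x w hw
    cases x with
    | zero =>
      simp only [wd, mem_singleton] at hw
      subst hw; simp
    | succ x => simp [wd] at hw
  | succ N ih =>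
    intro x w hw
    cases x with
    | zero =>
      simp only [wd, mem_image] at hw
      obtain ⟨w', h1, rfl⟩ := hw
      obtain ⟨a, b, c⟩ := ih h1
      refine ⟨by simp [a], by simp [b], ?_⟩
      simp only [List.count_cons_self]
      omega
    | succ x =>
      simp only [wd, mem_union, mem_image] at hw
      rcases hw with ⟨w', h1, rfl⟩ | ⟨w', h1, rfl⟩
      · obtain ⟨a, b, c⟩ := ih h1
        refine ⟨by simp [a], by simp [b], ?_⟩
        simp only [List.count_cons, beq_iff_eq, Bool.true_eq_false, if_false]
        omega
      · obtain ⟨a, b, c⟩ := ih h1
        refine ⟨by simp [a], by simp [b], ?_⟩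
        simp only [List.count_cons_self]
        omega

lemma card_wd : ∀ N x : ℕ, (wd N x).card = N.choose x := by
  intro N
  induction N with
  | zero =>
    intro x
    cases x with
    | zero => simp [wd]
    | succ x => simp [wd]
  | succ N ih =>
    intro x
    cases x with
    | zero =>
      simp only [wd]
      rw [Finset.card_image_of_injective _ (fun a b h => by simpa using h), ih]
      simp
    | succ x =>
      simp only [wd]
      rw [Finset.card_union_of_disjoint, Finset.card_image_of_injective _
        (fun a b h => by simpa using h), Finset.card_image_of_injective _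
        (fun a b h => by simpa using h), ih, ih, Nat.choose_succ_succ]
      rw [Finset.disjoint_left]
      intro w h1 h2
      rw [mem_image] at h1 h2
      obtain ⟨a, -, rfl⟩ := h1
      obtain ⟨b, -, hb⟩ := h2
      simp at hb

/-- value of the `i`-th letter `false`, where the letters `true` have sizes `sz` -/
def nf : List Bool → List ℕ → ℕ → ℕ → ℕ
  | [], _, k, i => k + i
  | true :: w, [], k, i => nf w [] k i
  | true :: w, s :: sz, k, i => nf w sz (k + s) i
  | false :: _, _, k, 0 => k
  | false :: w, sz, k, i + 1 => nf w sz (k + 1) i

lemma nf_ge : ∀ (w : List Bool) (sz : List ℕ) (k i : ℕ), k ≤ nf w sz k i := by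
  intro w
  induction w with
  | nil => intro sz k i; simp [nf]
  | cons b w ih =>
    intro sz k i
    cases b with
    | true =>
      cases sz with
      | nil => simp only [nf]; exact ih _ _ _
      | cons s sz => simp only [nf]; exact le_trans (Nat.le_add_right _ _) (ih _ _ _)
    | false =>
      cases i with
      | zero => simp [nf]
      | succ i => simp only [nf]; exact le_trans (Nat.le_add_right _ _) (ih _ _ _)

lemma nf_strictMono : ∀ (w : List Bool) (sz : List ℕ) (k : ℕ), StrictMono (nf w sz k) := by
  intro w
  induction w with
  | nil =>
    intro sz k i j h
    simp only [nf]; omega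
  | cons b w ih =>
    intro sz k
    cases b with
    | true =>
      cases sz with
      | nil =>
        have : nf (true :: w) [] k = nf w [] k := by funext i; simp [nf]
        rw [this]; exact ih _ _
      | cons s sz =>
        have : nf (true :: w) (s :: sz) k = nf w sz (k + s) := by funext i; simp [nf]
        rw [this]; exact ih _ _
    | false =>
      intro i j h
      cases j with
      | zero => omega
      | succ j =>
        cases i with
        | zero =>
          simp only [nf]
          exact lt_of_lt_of_le (Nat.lt_succ_self k) (nf_ge _ _ _ _)
        | succ i =>
          simp only [nf]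
          exact ih _ _ (by omega)

/-- the units: the `i`-th letter `true` becomes a run of consecutive values -/
def un : List Bool → List ℕ → ℕ → List (List ℕ)
  | [], _, _ => []
  | true :: _, [], _ => []
  | true :: w, s :: sz, k => List.range' k s :: un w sz (k + s)
  | false :: w, sz, k => un w sz (k + 1)

lemma un_ge : ∀ (w : List Bool) (sz : List ℕ) (k : ℕ), ∀ u ∈ un w sz k, ∀ a ∈ u, k ≤ a := by
  intro w
  induction w with
  | nil => intro sz k u hu; simp [un] at hu
  | cons b w ih =>
    intro sz k u hu a ha
    cases b with
    | true =>
      cases sz with
      | nil => simp [un] at hu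
      | cons s sz =>
        simp only [un, List.mem_cons] at hu
        rcases hu with rfl | hu
        · rw [List.mem_range'_1] at ha; exact ha.1
        · exact le_trans (Nat.le_add_right _ _) (ih _ _ u hu a ha)
    | false =>
      simp only [un] at hu
      exact le_trans (Nat.le_add_right _ _) (ih _ _ u hu a ha)

lemma un_length : ∀ (w : List Bool) (sz : List ℕ) (k : ℕ), sz.length = w.count true →
    (un w sz k).length = sz.length := by
  intro w
  induction w with
  | nil => intro sz k h; simp [un] at h ⊢; simp [h]
  | cons b w ih =>
    intro sz k h
    cases b with
    | true =>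
      cases sz with
      | nil => simp at h
      | cons s sz =>
        simp only [un, List.length_cons]
        rw [ih]
        simpa using h
    | false =>
      simp only [un]
      apply ih
      simpa using h

lemma un_pairwise : ∀ (w : List Bool) (sz : List ℕ) (k : ℕ),
    (un w sz k).Pairwise (fun u v => ∀ a ∈ u, ∀ b ∈ v, a < b) := by
  intro w
  induction w with
  | nil => intro sz k; simp [un]
  | cons b w ih =>
    intro sz k
    cases b with
    | true =>
      cases sz with
      | nil => simp [un]
      | cons s sz =>
        simp only [un]
        rw [List.pairwise_cons]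
        refine ⟨fun v hv a ha b hb => ?_, ih _ _⟩
        rw [List.mem_range'_1] at ha
        exact lt_of_lt_of_le ha.2 (un_ge _ _ _ v hv b hb)
    | false =>
      simp only [un]
      exact ih _ _

lemma un_shape : ∀ (w : List Bool) (sz : List ℕ) (k : ℕ), ∀ u ∈ un w sz k,
    ∃ v s, s ∈ sz ∧ u = List.range' v s := by
  intro w
  induction w with
  | nil => intro sz k u hu; simp [un] at hu
  | cons b w ih =>
    intro sz k u hu
    cases b with
    | true =>
      cases sz with
      | nil => simp [un] at hu
      | cons s sz =>
        simp only [un, List.mem_cons] at hu
        rcases hu with rfl | hu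
        · exact ⟨k, s, by simp, rfl⟩
        · obtain ⟨v, s', h1, h2⟩ := ih _ _ u hu
          exact ⟨v, s', by simp [h1], h2⟩
    | false =>
      simp only [un] at hu
      exact ih _ _ u hu

lemma un_perm : ∀ (w : List Bool) (sz : List ℕ) (k : ℕ), sz.length = w.count true →
    ((un w sz k).flatten ++ (List.range (w.count false)).map (nf w sz k)).Perm
      (List.range' k (sz.sum + w.count false)) := by
  intro w
  induction w with
  | nil => intro sz k h; simp [un] at h ⊢; simp [h]
  | cons b w ih =>
    intro sz k h
    cases b with
    | true =>
      cases sz with
      | nil => simp at h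
      | cons s sz =>
        simp only [un, List.flatten_cons]
        have hc : (true :: w).count false = w.count false := by simp
        rw [hc]
        have hn : nf (true :: w) (s :: sz) k = nf w sz (k + s) := by funext i; simp [nf]
        rw [hn, List.append_assoc, List.sum_cons, add_assoc, ← List.range'_append_1]
        exact (ih sz (k + s) (by simpa using h)).append_left _
    | false =>
      simp only [un]
      have hc : (false :: w).count false = w.count false + 1 := by simp
      rw [hc, List.range_succ_eq_map, List.map_cons, List.map_map]
      have h0 : nf (false :: w) sz k 0 = k := by simp [nf]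
      have hn : (nf (false :: w) sz k ∘ Nat.succ) = nf w sz (k + 1) := by
        funext i; simp [nf]
      rw [h0, hn, ← add_assoc, add_comm (sz.sum + w.count false) 1, ← List.range'_append_1]
      refine List.perm_middle.trans ?_
      simp only [List.range'_one, List.singleton_append]
      exact (ih sz (k + 1) (by simpa using h)).cons k

/-- the units determine the word and the sizes -/
lemma un_inj : ∀ (w w2 : List Bool) (sz sz2 : List ℕ) (k : ℕ), (∀ s ∈ sz, 1 ≤ s) →
    (∀ s ∈ sz2, 1 ≤ s) → sz.length = w.count true → sz2.length = w2.count true →
    w.length = w2.length → un w sz k = un w2 sz2 k → w = w2 ∧ sz = sz2 := by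
  intro w
  induction w with
  | nil =>
    intro w2 sz sz2 k _ _ h1 h2 h3 _
    have : w2 = [] := List.length_eq_zero_iff.1 (by simpa using h3.symm)
    subst this
    simp only [List.count_nil, List.length_eq_zero_iff] at h1 h2
    rw [h1, h2]
    exact ⟨rfl, rfl⟩
  | cons b w ih =>
    intro w2 sz sz2 k p1 p2 h1 h2 h3 h4
    cases w2 with
    | nil => simp at h3
    | cons b2 w2 =>
      have h3' : w.length = w2.length := by simpa using h3
      cases b with
      | true =>
        cases sz with
        | nil => simp at h1
        | cons s sz =>
          have p1s : 1 ≤ s := p1 s (by simp)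
          cases b2 with
          | true =>
            cases sz2 with
            | nil => simp at h2
            | cons s2 sz2 =>
              simp only [un, List.cons.injEq] at h4
              obtain ⟨e1, e2⟩ := h4
              have e3 : s = s2 := by
                have := congrArg List.length e1
                simpa using this
              subst e3
              obtain ⟨a, b⟩ := ih w2 sz sz2 (k + s) (fun t ht => p1 t (by simp [ht]))
                (fun t ht => p2 t (by simp [ht])) (by simpa using h1) (by simpa using h2) h3' e2
              rw [a, b]
              exact ⟨rfl, rfl⟩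
          | false =>
            exfalso
            simp only [un] at h4
            have hk : k ∈ List.range' k s := by rw [List.mem_range'_1]; omega
            have hmem : List.range' k s ∈ un w2 sz2 (k + 1) := by rw [← h4]; simp
            have := un_ge w2 sz2 (k + 1) _ hmem k hk
            omega
      | false =>
        cases b2 with
        | true =>
          cases sz2 with
          | nil => simp at h2
          | cons s2 sz2 =>
            exfalso
            have p2s : 1 ≤ s2 := p2 s2 (by simp)
            simp only [un] at h4
            have hk : k ∈ List.range' k s2 := by rw [List.mem_range'_1]; omega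
            have hmem : List.range' k s2 ∈ un w sz (k + 1) := by rw [h4]; simp
            have := un_ge w sz (k + 1) _ hmem k hk
            omega
        | false =>
          simp only [un] at h4
          obtain ⟨a, b⟩ := ih w2 sz sz2 (k + 1) p1 p2 (by simpa using h1) (by simpa using h2) h3' h4
          rw [a, b]
          exact ⟨rfl, rfl⟩

/-! ### Weaving -/

/-- interleave the units `U` with the letters `B` -/
def wv : List Bool → List (List ℕ) → List ℕ → List ℕ
  | [], _, _ => []
  | true :: w, [], B => wv w [] B
  | true :: w, u :: U, B => u ++ wv w U B
  | false :: w, U, [] => wv w U []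
  | false :: w, U, b :: B => b :: wv w U B

lemma wv_perm : ∀ (w : List Bool) (U : List (List ℕ)) (B : List ℕ), U.length = w.count true →
    B.length = w.count false → (wv w U B).Perm (U.flatten ++ B) := by
  intro w
  induction w with
  | nil =>
    intro U B h1 h2
    simp only [List.count_nil, List.length_eq_zero_iff] at h1 h2
    subst h1; subst h2; simp [wv]
  | cons b w ih =>
    intro U B h1 h2
    cases b with
    | true =>
      cases U with
      | nil => simp at h1
      | cons u U =>
        simp only [wv, List.flatten_cons, List.append_assoc]
        exact (ih U B (by simpa using h1) (by simpa using h2)).append_left _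
    | false =>
      cases B with
      | nil => simp at h2
      | cons b B =>
        simp only [wv]
        refine List.Perm.trans ?_ List.perm_middle.symm
        exact (ih U B (by simpa using h1) (by simpa using h2)).cons b

lemma wv_filter_lt {n : ℕ} : ∀ (w : List Bool) (U : List (List ℕ)) (B : List ℕ),
    U.length = w.count true → B.length = w.count false → (∀ a ∈ U.flatten, a < n) →
    (∀ b ∈ B, n ≤ b) → (wv w U B).filter (fun a => decide (a < n)) = U.flatten := by
  intro w
  induction w with
  | nil =>
    intro U B h1 h2
    simp only [List.count_nil, List.length_eq_zero_iff] at h1 h2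
    subst h1; subst h2; simp [wv]
  | cons b w ih =>
    intro U B h1 h2 h3 h4
    cases b with
    | true =>
      cases U with
      | nil => simp at h1
      | cons u U =>
        simp only [wv, List.flatten_cons, List.filter_append]
        rw [ih U B (by simpa using h1) (by simpa using h2)
          (fun a ha => h3 a (by simp only [List.flatten_cons, List.mem_append]; exact Or.inr ha)) h4]
        congr 1
        rw [List.filter_eq_self]
        intro a ha
        have := h3 a (by simp only [List.flatten_cons, List.mem_append]; exact Or.inl ha)
        simpa using this
    | false =>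
      cases B with
      | nil => simp at h2
      | cons b B =>
        simp only [wv]
        have hb : n ≤ b := h4 b (by simp)
        rw [List.filter_cons_of_neg (by simp; omega)]
        exact ih U B (by simpa using h1) (by simpa using h2) h3 (fun b hb => h4 b (by simp [hb]))

lemma wv_filter_ge {n : ℕ} : ∀ (w : List Bool) (U : List (List ℕ)) (B : List ℕ),
    U.length = w.count true → B.length = w.count false → (∀ a ∈ U.flatten, a < n) →
    (∀ b ∈ B, n ≤ b) → (wv w U B).filter (fun a => decide (n ≤ a)) = B := by
  intro w
  induction w with
  | nil =>
    intro U B h1 h2
    simp only [List.count_nil, List.length_eq_zero_iff] at h1 h2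
    subst h1; subst h2; simp [wv]
  | cons b w ih =>
    intro U B h1 h2 h3 h4
    cases b with
    | true =>
      cases U with
      | nil => simp at h1
      | cons u U =>
        simp only [wv, List.filter_append]
        rw [ih U B (by simpa using h1) (by simpa using h2)
          (fun a ha => h3 a (by simp only [List.flatten_cons, List.mem_append]; exact Or.inr ha)) h4]
        have : u.filter (fun a => decide (n ≤ a)) = [] := by
          rw [List.filter_eq_nil_iff]
          intro a ha
          have := h3 a (by simp only [List.flatten_cons, List.mem_append]; exact Or.inl ha)
          simp; omega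
        rw [this, List.nil_append]
    | false =>
      cases B with
      | nil => simp at h2
      | cons b B =>
        simp only [wv]
        have hb : n ≤ b := h4 b (by simp)
        rw [List.filter_cons_of_pos (by simp; omega)]
        rw [ih U B (by simpa using h1) (by simpa using h2) h3 (fun b hb => h4 b (by simp [hb]))]

lemma wv_inj {n : ℕ} : ∀ (w w2 : List Bool) (U : List (List ℕ)) (B : List ℕ),
    U.length = w.count true → B.length = w.count false → U.length = w2.count true →
    B.length = w2.count false → (∀ a ∈ U.flatten, a < n) → (∀ u ∈ U, u ≠ []) →
    (∀ b ∈ B, n ≤ b) → wv w U B = wv w2 U B → w = w2 := by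
  intro w
  induction w with
  | nil =>
    intro w2 U B h1 h2 h3 h4 _ _ _ _
    have : w2.length = 0 := by
      have e : w2.length = w2.count true + w2.count false := by
        rw [← List.count_true_add_count_false w2]
      rw [e, ← h3, ← h4, h1, h2]; simp
    exact (List.length_eq_zero_iff.1 this).symm
  | cons b w ih =>
    intro w2 U B h1 h2 h3 h4 h5 h6 h7 h8
    cases w2 with
    | nil =>
      exfalso
      simp only [List.count_nil, List.length_eq_zero_iff] at h3 h4
      subst h3; subst h4
      cases b <;> simp at h1 h2
    | cons b2 w2 =>
      cases b with
      | true =>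
        cases U with
        | nil => simp at h1
        | cons u U =>
          have h5' : ∀ a ∈ U.flatten, a < n := fun a ha => h5 a (by
            simp only [List.flatten_cons, List.mem_append]; exact Or.inr ha)
          cases b2 with
          | true =>
            simp only [wv] at h8
            have := ih w2 U B (by simpa using h1) (by simpa using h2) (by simpa using h3)
              (by simpa using h4) h5' (fun v hv => h6 v (by simp [hv])) h7
              (List.append_cancel_left h8)
            rw [this]
          | false =>
            exfalso
            cases B with
            | nil => simp at h4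
            | cons b B =>
              simp only [wv] at h8
              obtain ⟨c, u', hu⟩ : ∃ c u', u = c :: u' := by
                cases u with
                | nil => exact absurd rfl (h6 [] (by simp))
                | cons c u' => exact ⟨c, u', rfl⟩
              rw [hu, List.cons_append] at h8
              injection h8 with e1 e2
              have g1 : c < n := h5 c (by
                simp only [List.flatten_cons, List.mem_append]; left; rw [hu]; simp)
              have g2 : n ≤ b := h7 b (by simp)
              omega
      | false =>
        cases B with
        | nil => simp at h2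
        | cons b B =>
          cases b2 with
          | true =>
            exfalso
            cases U with
            | nil => simp at h3
            | cons u U =>
              simp only [wv] at h8
              obtain ⟨c, u', hu⟩ : ∃ c u', u = c :: u' := by
                cases u with
                | nil => exact absurd rfl (h6 [] (by simp))
                | cons c u' => exact ⟨c, u', rfl⟩
              rw [hu, List.cons_append] at h8
              injection h8 with e1 e2
              have g1 : c < n := h5 c (by
                simp only [List.flatten_cons, List.mem_append]; left; rw [hu]; simp)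
              have g2 : n ≤ b := h7 b (by simp)
              omega
          | false =>
            simp only [wv] at h8
            injection h8 with e1 e2
            have := ih w2 U B (by simpa using h1) (by simpa using h2) (by simpa using h3)
              (by simpa using h4) h5 h6 (fun v hv => h7 v (by simp [hv])) e2
            rw [this]

end Pool.Agent.Q296.DP
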